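import Pool.Agent.Lib.MP_0e7911_co_full.Sys
import Pool.Agent.Lib.MP_0e7911_co_h56.SymF

/-!
# B3: the value of `F` on the power sums
-/

set_option autoImplicit false

namespace Pool.Agent.Lib.MP_0e7911_co_full

open Finset Pool.Agent.Lib.MP_0e7911_co_h56

namespace B3

section newton

variable {A : Type*} [CommRing A]

/-- `x` satisfies Newton's recursion with the power sums `P`. -/
structure Newt (P x : ℕ → A) : Prop where
  zero : x 0 = 1
  rec' : ∀ n : ℕ, 0 < n → (n : A) * x n = ∑ i ∈ Icc 1 n, P i * x (n - i)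

theorem sum_range_Icc {B : Type*} [AddCommMonoid B] (f : ℕ → B) (n : ℕ) :
    ∑ i ∈ range (n + 1), f i = f 0 + ∑ i ∈ Icc 1 n, f i := by
  rw [Finset.sum_range_succ', add_comm]
  congr 1
  rw [← Finset.sum_image (s := range n) (g := fun i => i + 1) (f := f)]
  · congr 1
    ext i
    simp only [mem_image, mem_range, mem_Icc]
    constructor
    · rintro ⟨a, ha, rfl⟩
      omega
    · intro h
      exact ⟨i - 1, by omega, by omega⟩
  · intro a _ b _ h
    simpa using h

theorem Newt.prod {P P' x y : ℕ → A} (hx : Newt P x) (hy : Newt P' y) :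
    Newt (fun i => P i + P' i) (fun n => ∑ i ∈ range (n + 1), x i * y (n - i)) := by
  let S : (ℕ → A) → PowerSeries A := fun x => PowerSeries.mk x
  let T : (ℕ → A) → PowerSeries A := fun P => PowerSeries.mk (fun n => if n = 0 then 0 else P n)
  have key : ∀ (P x : ℕ → A), (∀ n : ℕ, 0 < n → (n : A) * x n = ∑ i ∈ Icc 1 n, P i * x (n - i)) ↔
      PowerSeries.X * PowerSeries.derivative A (S x) = T P * S x := by
    intro P x
    constructor
    · intro h
      ext n
      rcases n with _ | n
      · simp [S, T]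
      · rw [PowerSeries.coeff_succ_X_mul, PowerSeries.coeff_derivative, PowerSeries.coeff_mul,
          Finset.Nat.sum_antidiagonal_eq_sum_range_succ
            (fun i j => PowerSeries.coeff i (T P) * PowerSeries.coeff j (S x)), sum_range_Icc]
        simp only [S, T, PowerSeries.coeff_mk, if_true, zero_mul, zero_add]
        have h1 := h (n + 1) (Nat.succ_pos n)
        rw [mul_comm]
        push_cast at h1
        rw [h1]
        apply Finset.sum_congr rfl
        intro i hi
        rw [mem_Icc] at hi
        rw [if_neg (by omega)]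
    · intro h n hn
      obtain ⟨m, rfl⟩ : ∃ m, n = m + 1 := ⟨n - 1, by omega⟩
      have h1 := congrArg (PowerSeries.coeff (m + 1)) h
      rw [PowerSeries.coeff_succ_X_mul, PowerSeries.coeff_derivative, PowerSeries.coeff_mul,
          Finset.Nat.sum_antidiagonal_eq_sum_range_succ
            (fun i j => PowerSeries.coeff i (T P) * PowerSeries.coeff j (S x)), sum_range_Icc] at h1
      simp only [S, T, PowerSeries.coeff_mk, if_true, zero_mul, zero_add] at h1
      rw [mul_comm] at h1
      push_cast
      rw [h1]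
      apply Finset.sum_congr rfl
      intro i hi
      rw [mem_Icc] at hi
      rw [if_neg (by omega)]
  have hS : S (fun n => ∑ i ∈ range (n + 1), x i * y (n - i)) = S x * S y := by
    ext n
    rw [PowerSeries.coeff_mul, Finset.Nat.sum_antidiagonal_eq_sum_range_succ
            (fun i j => PowerSeries.coeff i (S x) * PowerSeries.coeff j (S y))]
    simp [S]
  have hT : T (fun i => P i + P' i) = T P + T P' := by
    ext n
    simp only [T, PowerSeries.coeff_mk, map_add]
    split_ifs <;> simp
  refine ⟨?_, ?_⟩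
  · simp [hx.zero, hy.zero]
  · rw [key, hS, hT]
    have h1 := (key P x).1 hx.rec'
    have h2 := (key P' y).1 hy.rec'
    rw [Derivation.leibniz, smul_eq_mul, smul_eq_mul, mul_add]
    calc PowerSeries.X * (S x * PowerSeries.derivative A (S y)) +
          PowerSeries.X * (S y * PowerSeries.derivative A (S x))
        = S x * (PowerSeries.X * PowerSeries.derivative A (S y)) +
          S y * (PowerSeries.X * PowerSeries.derivative A (S x)) := by ring
      _ = _ := by rw [h1, h2]; ring

theorem Newt.unique {P x y : ℕ → A} (hA : ∀ (n : ℕ) (a b : A), 0 < n → (n : A) * a = n * b → a = b)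
    (hx : Newt P x) (hy : Newt P y) : ∀ n, x n = y n := by
  intro n
  induction n using Nat.strong_induction_on with
  | _ n ih =>
    rcases Nat.eq_zero_or_pos n with h | h
    · rw [h, hx.zero, hy.zero]
    · apply hA n _ _ h
      rw [hx.rec' n h, hy.rec' n h]
      apply Finset.sum_congr rfl
      intro i hi
      rw [mem_Icc] at hi
      rw [ih (n - i) (by omega)]

theorem Newt.scale {P x : ℕ → A} (hx : Newt P x) (a : A) :
    Newt (fun i => a ^ i * P i) (fun i => a ^ i * x i) := by
  refine ⟨?_, ?_⟩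
  · simp [hx.zero]
  · intro n hn
    have h1 := hx.rec' n hn
    calc (n : A) * (a ^ n * x n) = a ^ n * (n * x n) := by ring
      _ = _ := by
        rw [h1, Finset.mul_sum]
        apply Finset.sum_congr rfl
        intro i hi
        rw [mem_Icc] at hi
        have : a ^ n = a ^ i * a ^ (n - i) := by
          rw [← pow_add]
          congr 1
          omega
        rw [this]
        ring

theorem Newt.map {B : Type*} [CommRing B] (f : A →+* B) {P x : ℕ → A} (hx : Newt P x) :
    Newt (fun i => f (P i)) (fun i => f (x i)) := by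
  refine ⟨?_, ?_⟩
  · rw [hx.zero, map_one]
  · intro n hn
    have h1 := congrArg f (hx.rec' n hn)
    simpa using h1

theorem Newt.congr {P P' x : ℕ → A} (hx : Newt P x) (h : ∀ i, 0 < i → P i = P' i) :
    Newt P' x := by
  refine ⟨hx.zero, ?_⟩
  intro n hn
  rw [hx.rec' n hn]
  apply Finset.sum_congr rfl
  intro i hi
  rw [mem_Icc] at hi
  rw [h i hi.1]

end newton

section symf

variable {K : Type*} [Field K] [CharZero K]

theorem sum_fin_Icc {B : Type*} [AddCommMonoid B] (f : ℕ → B) (n : ℕ) :
    ∑ k : Fin (n + 1), f k = ∑ i ∈ Icc 1 (n + 1), f (i - 1) := by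
  rw [Fin.sum_univ_eq_sum_range f (n + 1)]
  have h1 := Finset.sum_image (s := range (n + 1)) (g := fun i => i + 1) (f := fun i => f (i - 1))
    (fun a _ b _ h => by simpa using h)
  simp only [Nat.add_sub_cancel] at h1
  rw [← h1]
  congr 1
  ext i
  simp only [mem_image, mem_range, mem_Icc]
  constructor
  · rintro ⟨a, ha, rfl⟩
    omega
  · intro h
    exact ⟨i - 1, by omega, by omega⟩

theorem cast_mul_C_inv (n : ℕ) (f : SymF K) :
    ((n + 1 : ℕ) : SymF K) * (MvPolynomial.C (((n + 1 : ℕ) : K)⁻¹) * f) = f := by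
  have hne : ((n + 1 : ℕ) : K) ≠ 0 := by exact_mod_cast Nat.succ_ne_zero n
  have h1 : ((n + 1 : ℕ) : SymF K) = MvPolynomial.C ((n + 1 : ℕ) : K) := by simp
  rw [h1, ← mul_assoc, ← map_mul, mul_inv_cancel₀ hne, map_one, one_mul]

theorem newt_homog : Newt (psum K) (homog K) := by
  refine ⟨by rw [homog], ?_⟩
  intro n hn
  obtain ⟨m, rfl⟩ : ∃ m, n = m + 1 := ⟨n - 1, by omega⟩
  rw [homog, cast_mul_C_inv, sum_fin_Icc (fun k => psum K (k + 1) * homog K (m - k))]
  apply Finset.sum_congr rfl
  intro i hi
  rw [mem_Icc] at hi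
  have e1 : i - 1 + 1 = i := by omega
  have e2 : m - (i - 1) = m + 1 - i := by omega
  rw [e1, e2]

theorem newt_elem : Newt (fun i => - psum K i) (fun i => (-1) ^ i * elem K i) := by
  refine ⟨by simp [elem], ?_⟩
  intro n hn
  obtain ⟨m, rfl⟩ : ∃ m, n = m + 1 := ⟨n - 1, by omega⟩
  have h1 : ((m + 1 : ℕ) : SymF K) * elem K (m + 1) =
      ∑ k : Fin (m + 1), (-1) ^ (k : ℕ) * psum K (k + 1) * elem K (m - k) := by
    rw [elem, cast_mul_C_inv]
  calc ((m + 1 : ℕ) : SymF K) * ((-1) ^ (m + 1) * elem K (m + 1))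
      = (-1) ^ (m + 1) * (((m + 1 : ℕ) : SymF K) * elem K (m + 1)) := by ring
    _ = _ := by
      rw [h1, sum_fin_Icc (fun k => (-1) ^ k * psum K (k + 1) * elem K (m - k)), Finset.mul_sum]
      apply Finset.sum_congr rfl
      intro i hi
      rw [mem_Icc] at hi
      have e1 : i - 1 + 1 = i := by omega
      have e2 : m - (i - 1) = m + 1 - i := by omega
      rw [e1, e2]
      have e3 : ((-1 : SymF K)) ^ (m + 1) = (-1) ^ (i - 1) * (-1) * (-1) ^ (m + 1 - i) := by
        rw [← pow_succ, ← pow_add]
        congr 1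
        omega
      have e4 : ((-1 : SymF K)) ^ (i - 1) * (-1) ^ (i - 1) = 1 := by
        rw [← mul_pow]
        simp
      rw [e3]
      calc (-1 : SymF K) ^ (i - 1) * -1 * (-1) ^ (m + 1 - i) *
            ((-1) ^ (i - 1) * psum K i * elem K (m + 1 - i))
          = ((-1 : SymF K) ^ (i - 1) * (-1) ^ (i - 1)) * (-psum K i *
            ((-1) ^ (m + 1 - i) * elem K (m + 1 - i))) := by ring
        _ = _ := by rw [e4, one_mul]

theorem pleth_psum (c : ℕ → K) (k : ℕ) (hk : 0 < k) :
    pleth c (psum K k) = MvPolynomial.C (c k) * psum K k := by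
  unfold pleth psum
  rw [MvPolynomial.aeval_X]
  have : k - 1 + 1 = k := by omega
  rw [this]

/-- the one row element -/
noncomputable def gg (p : K) (k : ℕ) : SymF K :=
  (p / (p - 1)) • pleth (fun k => (1 - p ^ k) / p ^ k) (homog K k)

theorem natCast_cancel (n : ℕ) (a b : SymF K) (hn : 0 < n)
    (h : (n : SymF K) * a = (n : SymF K) * b) : a = b := by
  obtain ⟨m, rfl⟩ : ∃ m, n = m + 1 := ⟨n - 1, by omega⟩
  have h1 : MvPolynomial.C (((m + 1 : ℕ) : K)⁻¹) * (((m + 1 : ℕ) : SymF K) * a) =
      MvPolynomial.C (((m + 1 : ℕ) : K)⁻¹) * (((m + 1 : ℕ) : SymF K) * b) := by rw [h]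
  rw [mul_left_comm, cast_mul_C_inv, mul_left_comm, cast_mul_C_inv] at h1
  exact h1

theorem gg_identity (p : K) (hp0 : p ≠ 0) (hp1 : p ≠ 1) (n : ℕ) :
    qint p n • ((-1) ^ n * elem K n) =
      ∑ i ∈ Icc 1 n, p ^ (i - 1) • (gg p i * ((-1) ^ (n - i) * elem K (n - i))) := by
  have h1 := (newt_elem (K := K)).scale (MvPolynomial.C p)
  have h2 := (((newt_homog (K := K)).map
    (pleth (fun k => (1 - p ^ k) / p ^ k)).toRingHom).scale (MvPolynomial.C p)).prod
    (newt_elem (K := K))
  have h3 := h2.congr (P' := fun i => MvPolynomial.C p ^ i * - psum K i) (by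
    intro i hi
    change MvPolynomial.C p ^ i * pleth (fun k => (1 - p ^ k) / p ^ k) (psum K i) +
      - psum K i = _
    rw [pleth_psum _ i hi, ← mul_assoc, ← map_pow, ← map_mul]
    have : p ^ i * ((1 - p ^ i) / p ^ i) = 1 - p ^ i := by
      field_simp
    rw [this, map_sub, map_one]
    ring)
  have h4 := Newt.unique natCast_cancel h1 h3 n
  rw [sum_range_Icc] at h4
  simp only [pow_zero, one_mul, Nat.sub_zero] at h4
  change _ = pleth (fun k => (1 - p ^ k) / p ^ k) (homog K 0) * _ + ∑ i ∈ Icc 1 n,
    MvPolynomial.C p ^ i * pleth (fun k => (1 - p ^ k) / p ^ k) (homog K i) * _ at h4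
  rw [homog, map_one, one_mul] at h4
  have hp : p - 1 ≠ 0 := sub_ne_zero.mpr hp1
  have h5 : (p ^ n - 1) • ((-1) ^ n * elem K n) = ∑ i ∈ Icc 1 n, MvPolynomial.C p ^ i *
      pleth (fun k => (1 - p ^ k) / p ^ k) (homog K i) * ((-1) ^ (n - i) * elem K (n - i)) := by
    rw [sub_smul, one_smul, MvPolynomial.smul_eq_C_mul, map_pow, h4]
    ring
  have h6 : qint p n = (p - 1)⁻¹ * (p ^ n - 1) := by
    unfold qint
    rw [eq_inv_mul_iff_mul_eq₀ hp, mul_comm, geom_sum_mul]
  rw [h6, mul_smul, h5, Finset.smul_sum]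
  apply Finset.sum_congr rfl
  intro i hi
  rw [mem_Icc] at hi
  unfold gg
  have h7 : (MvPolynomial.C p : SymF K) ^ i = MvPolynomial.C (p ^ (i - 1)) * MvPolynomial.C p := by
    rw [← map_mul, ← pow_succ, ← map_pow]
    congr 2
    omega
  rw [h7]
  simp only [MvPolynomial.smul_eq_C_mul]
  have h8 : (MvPolynomial.C (p / (p - 1)) : SymF K) =
      MvPolynomial.C ((p - 1)⁻¹) * MvPolynomial.C p := by
    rw [← map_mul]
    congr 1
    rw [div_eq_mul_inv, mul_comm]
  rw [h8]
  ring

theorem gfun_eq (q t : K) (l : YoungDiagram) :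
    gfun q t l = (l.rowLens.map (gg (q * t))).prod := by
  unfold gfun
  generalize l.rowLens = w
  induction w with
  | nil => simp
  | cons a w ih =>
    rw [List.map_cons, List.map_cons, List.prod_cons, List.prod_cons, List.length_cons, ← ih]
    unfold gg
    rw [pow_succ', mul_smul, smul_mul_smul_comm, ← mul_smul]

theorem span_gfun (q t : K) (hp0 : q * t ≠ 0) (hp : ∀ k : ℕ, 0 < k → (q * t) ^ k ≠ 1) :
    Submodule.span K (Set.range (gfun q t)) = ⊤ := by
  set p := q * t with hpdef
  have hp1 : p ≠ 1 := by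
    have := hp 1 one_pos
    rwa [pow_one] at this
  have hp1' : p - 1 ≠ 0 := sub_ne_zero.mpr hp1
  -- products of the one-row elements
  have hprod : ∀ w : List ℕ, (∀ x ∈ w, 0 < x) →
      (w.map (gg p)).prod ∈ Submodule.span K (Set.range (gfun q t)) := by
    intro w hw
    apply Submodule.subset_span
    have hs : (w.insertionSort (· ≥ ·)).SortedGE := List.sortedGE_insertionSort
    refine ⟨YoungDiagram.ofRowLens (w.insertionSort (· ≥ ·)) hs, ?_⟩
    rw [gfun_eq, YoungDiagram.rowLens_ofRowLens_eq_self]
    · apply List.Perm.prod_eq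
      exact (List.perm_insertionSort _ w).map _
    · intro x hx
      exact hw x ((List.perm_insertionSort _ w).mem_iff.mp hx)
  -- the span is a subalgebra
  let B : Subalgebra K (SymF K) :=
    Algebra.adjoin K (Set.range (fun k : ℕ => gg p (k + 1)))
  have hB : ∀ f ∈ B, f ∈ Submodule.span K (Set.range (gfun q t)) := by
    intro f hf
    have h1 : f ∈ Submodule.span K ((Submonoid.closure
        (Set.range (fun k : ℕ => gg p (k + 1))) : Set (SymF K))) := by
      rw [← Algebra.adjoin_eq_span]
      exact hf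
    refine Submodule.span_le.mpr ?_ h1
    intro g hg
    have h2 : ∃ w : List ℕ, (∀ x ∈ w, 0 < x) ∧ (w.map (gg p)).prod = g := by
      refine Submonoid.closure_induction (motive := fun g _ => ∃ w : List ℕ, (∀ x ∈ w, 0 < x) ∧
        (w.map (gg p)).prod = g) ?_ ?_ ?_ hg
      · rintro x ⟨k, rfl⟩
        exact ⟨[k + 1], by simp, by simp⟩
      · exact ⟨[], by simp, by simp⟩
      · rintro x y _ _ ⟨w, hw, rfl⟩ ⟨w', hw', rfl⟩
        refine ⟨w ++ w', ?_, by simp⟩
        intro x hx
        rcases List.mem_append.mp hx with h | h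
        · exact hw x h
        · exact hw' x h
    obtain ⟨w, hw, rfl⟩ := h2
    exact hprod w hw
  have hBtop : B = ⊤ := by
    -- the complete functions are in B
    have hx : ∀ n, pleth (fun k => (1 - p ^ k) / p ^ k) (homog K n) ∈ B := by
      intro n
      rcases n with _ | n
      · rw [homog, map_one]
        exact B.one_mem
      · have h1 : pleth (fun k => (1 - p ^ k) / p ^ k) (homog K (n + 1)) =
            ((p - 1) / p) • gg p (n + 1) := by
          unfold gg
          rw [smul_smul]
          have : (p - 1) / p * (p / (p - 1)) = 1 := by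
            field_simp
          rw [this, one_smul]
        rw [h1]
        exact B.smul_mem (Algebra.subset_adjoin ⟨n, rfl⟩) _
    have hnewt := (newt_homog (K := K)).map (pleth (fun k => (1 - p ^ k) / p ^ k)).toRingHom
    have hP : ∀ n, 0 < n → pleth (fun k => (1 - p ^ k) / p ^ k) (psum K n) ∈ B := by
      intro n
      induction n using Nat.strong_induction_on with
      | _ n ih =>
        intro hn
        have h1 := hnewt.rec' n hn
        obtain ⟨m, rfl⟩ : ∃ m, n = m + 1 := ⟨n - 1, by omega⟩
        rw [Finset.sum_Icc_succ_top (by omega)] at h1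
        rw [Nat.sub_self] at h1
        change _ * pleth (fun k => (1 - p ^ k) / p ^ k) (homog K (m + 1)) = (∑ i ∈ Icc 1 m,
          pleth (fun k => (1 - p ^ k) / p ^ k) (psum K i) *
          pleth (fun k => (1 - p ^ k) / p ^ k) (homog K (m + 1 - i))) +
          pleth (fun k => (1 - p ^ k) / p ^ k) (psum K (m + 1)) *
          pleth (fun k => (1 - p ^ k) / p ^ k) (homog K 0) at h1
        rw [homog, map_one, mul_one] at h1
        rw [← sub_eq_iff_eq_add'] at h1
        rw [← h1]
        apply B.sub_mem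
        · apply B.mul_mem _ (hx _)
          exact natCast_mem B (m + 1)
        · apply B.sum_mem
          intro i hi
          rw [mem_Icc] at hi
          exact B.mul_mem (ih i (by omega) (by omega)) (hx _)
    rw [eq_top_iff]
    intro f _
    have hX : ∀ j : ℕ, (MvPolynomial.X j : SymF K) ∈ B := by
      intro j
      have h1 := hP (j + 1) (Nat.succ_pos j)
      rw [pleth_psum _ _ (Nat.succ_pos j)] at h1
      have hne : (1 - p ^ (j + 1)) / p ^ (j + 1) ≠ 0 := by
        apply div_ne_zero
        · exact sub_ne_zero.mpr (fun h => hp (j + 1) (Nat.succ_pos j) h.symm)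
        · exact pow_ne_zero _ hp0
      have h2 : (MvPolynomial.X j : SymF K) = ((1 - p ^ (j + 1)) / p ^ (j + 1))⁻¹ •
          (MvPolynomial.C ((1 - p ^ (j + 1)) / p ^ (j + 1)) * psum K (j + 1)) := by
        rw [← MvPolynomial.smul_eq_C_mul, smul_smul, inv_mul_cancel₀ hne, one_smul]
        rfl
      rw [h2]
      exact B.smul_mem h1 _
    have h3 : Algebra.adjoin K (Set.range (MvPolynomial.X : ℕ → SymF K)) ≤ B := by
      apply Algebra.adjoin_le
      rintro x ⟨j, rfl⟩
      exact hX j
    rw [MvPolynomial.adjoin_range_X] at h3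
    exact h3 trivial
  rw [eq_top_iff]
  intro f _
  apply hB
  rw [hBtop]
  trivial

end symf

end B3

open B3 in
theorem F_psum {K : Type*} [Field K] {q t : K} {W : Type*} [AddCommGroup W] [Module K W]
    [CharZero K] (hp : ∀ k : ℕ, 0 < k → (q * t) ^ k ≠ 1)
    (hp0 : q * t ≠ 0) (Ef Qf Nf : ℕ → Module.End K W) (hE0 : Ef 0 = 1)
    (hN : ∀ k : ℕ, 0 < k → (k : K) • Ef k = ∑ i ∈ Icc 1 k, Ef (k - i) * Nf i)
    (hQ : ∀ k : ℕ, 0 < k → qint (q * t) k • Ef k =
      ∑ i ∈ Icc 1 k, (q * t) ^ (i - 1) • (Qf i * Ef (k - i)))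
    (hc : ∀ m k : ℕ, Qf m * Ef k = Ef k * Qf m) (e : W) (F : SymF K →ₗ[K] W)
    (hF : ∀ l : YoungDiagram, F (gfun q t l) = (l.rowLens.map Qf).prod e) (d : ℕ) (hd : 0 < d) :
    F (psum K d) = - Nf d e := by
  set p := q * t with hpdef
  have hp1 : p ≠ 1 := by
    have := hp 1 one_pos
    rwa [pow_one] at this
  have hqint : ∀ k, 0 < k → qint p k ≠ 0 := by
    intro k hk h0
    apply hp k hk
    have h1 := geom_sum_mul p k
    unfold qint at h0
    rw [h0, zero_mul] at h1
    exact (sub_eq_zero.mp h1.symm)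
  -- the operators `E_k` commute
  have hcomm : ∀ k j, Ef k * Ef j = Ef j * Ef k := by
    intro k
    induction k using Nat.strong_induction_on with
    | _ k ih =>
      intro j
      rcases Nat.eq_zero_or_pos k with h | h
      · rw [h, hE0, one_mul, mul_one]
      · have h1 : qint p k • (Ef k * Ef j) = qint p k • (Ef j * Ef k) := by
          rw [← smul_mul_assoc, hQ k h, ← mul_smul_comm, hQ k h, Finset.sum_mul, Finset.mul_sum]
          apply Finset.sum_congr rfl
          intro i hi
          rw [mem_Icc] at hi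
          rw [smul_mul_assoc, mul_smul_comm, mul_assoc, ih (k - i) (by omega) j, ← mul_assoc,
            hc, mul_assoc]
        have h2 := congrArg (fun f => (qint p k)⁻¹ • f) h1
        simp only [smul_smul, inv_mul_cancel₀ (hqint k h), one_smul] at h2
        exact h2
  let S := Algebra.adjoin K (Set.range Ef)
  have hcS : ∀ a ∈ Set.range Ef, ∀ b ∈ Set.range Ef, a * b = b * a := by
    rintro _ ⟨a, rfl⟩ _ ⟨b, rfl⟩
    exact hcomm a b
  letI : CommRing S := Algebra.adjoinCommRingOfComm K hcS
  have hES : ∀ k, Ef k ∈ S := fun k => Algebra.subset_adjoin ⟨k, rfl⟩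
  have hNS : ∀ k, 0 < k → Nf k ∈ S := by
    intro k
    induction k using Nat.strong_induction_on with
    | _ k ih =>
      intro hk
      have h1 := hN k hk
      obtain ⟨m, rfl⟩ : ∃ m, k = m + 1 := ⟨k - 1, by omega⟩
      rw [Finset.sum_Icc_succ_top (by omega), Nat.sub_self, hE0, one_mul,
        ← sub_eq_iff_eq_add'] at h1
      rw [← h1]
      apply S.sub_mem (S.smul_mem (hES _) _)
      apply S.sum_mem
      intro i hi
      rw [mem_Icc] at hi
      exact S.mul_mem (hES _) (ih i (by omega) (by omega))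
  let Es : ℕ → S := fun k => ⟨Ef k, hES k⟩
  let Ns : ℕ → S := fun k => ⟨Nf (k + 1), hNS (k + 1) (Nat.succ_pos k)⟩
  let Θ : SymF K →ₐ[K] S := MvPolynomial.aeval (fun j => - Ns j)
  have hΘp : ∀ k, 0 < k → ((Θ (psum K k) : S) : Module.End K W) = - Nf k := by
    intro k hk
    unfold psum
    simp only [Θ]
    rw [MvPolynomial.aeval_X]
    change - Nf (k - 1 + 1) = _
    have : k - 1 + 1 = k := by omega
    rw [this]
  have hcancel : ∀ (n : ℕ) (a b : S), 0 < n → (n : S) * a = n * b → a = b := by
    intro n a b hn h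
    have hne : (n : K) ≠ 0 := by exact_mod_cast hn.ne'
    have h1 : ∀ c : S, (n : S) * c = (n : K) • c := by
      intro c
      apply Subtype.ext
      change ((n : ℕ) : Module.End K W) * (c : Module.End K W) = (n : K) • (c : Module.End K W)
      rw [← nsmul_eq_mul, Nat.cast_smul_eq_nsmul]
    rw [h1, h1] at h
    have h2 := congrArg (fun f => (n : K)⁻¹ • f) h
    simp only [smul_smul, inv_mul_cancel₀ hne, one_smul] at h2
    exact h2
  have hnE : Newt (fun i => Θ (-psum K i)) Es := by
    refine ⟨?_, ?_⟩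
    · apply Subtype.ext
      exact hE0
    · intro n hn
      apply Subtype.ext
      have h1 := hN n hn
      have h2 : (((n : S) * Es n : S) : Module.End K W) = (n : K) • Ef n := by
        change ((n : ℕ) : Module.End K W) * Ef n = (n : K) • Ef n
        rw [← nsmul_eq_mul, Nat.cast_smul_eq_nsmul]
      rw [h2, h1]
      have h3 : ((∑ i ∈ Icc 1 n, Θ (-psum K i) * Es (n - i) : S) : Module.End K W) =
          ∑ i ∈ Icc 1 n, (((Es (n - i) * Θ (-psum K i) : S)) : Module.End K W) := by
        rw [AddSubmonoidClass.coe_finsetSum]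
        apply Finset.sum_congr rfl
        intro i _
        rw [mul_comm]
      rw [h3]
      apply Finset.sum_congr rfl
      intro i hi
      rw [mem_Icc] at hi
      change Ef (n - i) * Nf i = Ef (n - i) * (Θ (-psum K i) : S)
      rw [map_neg]
      change _ = Ef (n - i) * (- ((Θ (psum K i) : S) : Module.End K W))
      rw [hΘp i hi.1, neg_neg]
  have hΘe : ∀ k, Θ ((-1) ^ k * elem K k) = Es k :=
    Newt.unique hcancel ((newt_elem (K := K)).map Θ.toRingHom) hnE
  have hΘg : ∀ k, 0 < k → ((Θ (gg p k) : S) : Module.End K W) = Qf k := by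
    intro k
    induction k using Nat.strong_induction_on with
    | _ k ih =>
      intro hk
      have h1 := congrArg (fun f => ((Θ f : S) : Module.End K W)) (gg_identity p hp0 hp1 k)
      beta_reduce at h1
      rw [map_smul, hΘe, map_sum, AddSubmonoidClass.coe_finsetSum] at h1
      change qint p k • Ef k = _ at h1
      rw [hQ k hk] at h1
      obtain ⟨m, rfl⟩ : ∃ m, k = m + 1 := ⟨k - 1, by omega⟩
      rw [Finset.sum_Icc_succ_top (by omega), Finset.sum_Icc_succ_top (by omega)] at h1
      have h2 : ∀ i ∈ Icc 1 m, p ^ (i - 1) • (Qf i * Ef (m + 1 - i)) =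
          ((Θ (p ^ (i - 1) • (gg p i * ((-1) ^ (m + 1 - i) * elem K (m + 1 - i)))) : S) :
            Module.End K W) := by
        intro i hi
        rw [mem_Icc] at hi
        rw [map_smul, map_mul, hΘe]
        change _ = p ^ (i - 1) • (((Θ (gg p i) : S) : Module.End K W) * Ef (m + 1 - i))
        rw [ih i (by omega) hi.1]
      rw [Finset.sum_congr rfl h2] at h1
      have h3 := add_left_cancel h1
      rw [map_smul, map_mul, hΘe] at h3
      change _ = p ^ (m + 1 - 1) • (((Θ (gg p (m + 1)) : S) : Module.End K W) *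
        Ef (m + 1 - (m + 1))) at h3
      rw [Nat.sub_self, hE0, mul_one, mul_one] at h3
      have h4 := congrArg (fun f => (p ^ (m + 1 - 1))⁻¹ • f) h3
      simp only [smul_smul, inv_mul_cancel₀ (pow_ne_zero _ hp0), one_smul] at h4
      exact h4.symm
  let G : SymF K →ₗ[K] W :=
    { toFun := fun f => ((Θ f : S) : Module.End K W) e
      map_add' := by
        intro f g
        rw [map_add]
        rfl
      map_smul' := by
        intro c f
        rw [map_smul]
        rfl }
  have hFG : F = G := by
    apply LinearMap.ext_on (span_gfun q t hp0 hp)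
    rintro _ ⟨l, rfl⟩
    rw [hF l]
    change _ = ((Θ (gfun q t l) : S) : Module.End K W) e
    congr 1
    rw [gfun_eq]
    have hpos : ∀ x ∈ l.rowLens, 0 < x := fun x hx => YoungDiagram.pos_of_mem_rowLens l x hx
    generalize l.rowLens = w at hpos
    induction w with
    | nil =>
      rw [List.map_nil, List.map_nil, List.prod_nil, List.prod_nil, map_one]
      rfl
    | cons a w ih =>
      rw [List.map_cons, List.map_cons, List.prod_cons, List.prod_cons, map_mul,
        ih (fun x hx => hpos x (List.mem_cons_of_mem a hx))]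
      change Qf a * _ = ((Θ (gg p a) : S) : Module.End K W) * _
      rw [hΘg a (hpos a List.mem_cons_self)]
  rw [hFG]
  change ((Θ (psum K d) : S) : Module.End K W) e = _
  rw [hΘp d hd]
  rfl

end Pool.Agent.Lib.MP_0e7911_co_full
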