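import Pool.Agent.Lib.MP_0e7911_co_h13.MacFinal
import Pool.Agent.Lib.MP_0e7911_co_h88.Mac3

/-!
# Existence of the modified Macdonald polynomials, from triangular eigenvectors
-/

set_option autoImplicit false

namespace Pool.Agent.Lib.MP_0e7911_co_full

open Finset Pool.Agent.Lib.MP_0e7911_co_h56

section lin

variable {K : Type*} [Field K] {V : Type*} [AddCommGroup V] [Module K V]

/-- simple spectrum: an eigenvector is a multiple of the given one -/
theorem eig_unique {ι : Type*} (T : Module.End K V) (c : ι → K) (hc : Function.Injective c)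
    (f : ι → V) (hspan : Submodule.span K (Set.range f) = ⊤) (hne : ∀ ν, f ν ≠ 0)
    (heig : ∀ ν, T (f ν) = c ν • f ν) (μ : ι) (g : V) (hg : T g = c μ • g) :
    ∃ a : K, g = a • f μ := by
  classical
  have hlin : LinearIndependent K f := by
    refine Module.End.eigenvectors_linearIndependent' T c hc f fun a => ?_
    rw [Module.End.hasEigenvector_iff]
    exact ⟨Module.End.mem_eigenspace_iff.2 (heig a), hne a⟩
  have h1 : g ∈ Submodule.span K (Set.range f) := by
    rw [hspan]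
    exact Submodule.mem_top
  obtain ⟨l, rfl⟩ := (Finsupp.mem_span_range_iff_exists_finsupp).1 h1
  have h2 : ∑ ν ∈ l.support, (l ν * (c ν - c μ)) • f ν = 0 := by
    have h3 : T (l.sum fun i a => a • f i) = ∑ ν ∈ l.support, (l ν * c ν) • f ν := by
      rw [Finsupp.sum, map_sum]
      refine Finset.sum_congr rfl fun ν _ => ?_
      rw [map_smul, heig, smul_smul]
    have h4 : c μ • (l.sum fun i a => a • f i) = ∑ ν ∈ l.support, (l ν * c μ) • f ν := by
      rw [Finsupp.sum, Finset.smul_sum]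
      refine Finset.sum_congr rfl fun ν _ => ?_
      rw [smul_smul, mul_comm]
    rw [h3, h4] at hg
    rw [← sub_eq_zero, ← Finset.sum_sub_distrib] at hg
    rw [← hg]
    refine Finset.sum_congr rfl fun ν _ => ?_
    rw [mul_sub, sub_smul]
  have h5 := linearIndependent_iff'.1 hlin _ _ h2
  refine ⟨l μ, ?_⟩
  rw [Finsupp.sum]
  by_cases hμ : μ ∈ l.support
  · rw [Finset.sum_eq_single μ]
    · intro ν hν hne'
      have h6 := h5 ν hν
      rw [mul_eq_zero] at h6
      rcases h6 with h6 | h6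
      · rw [h6, zero_smul]
      · exact absurd (hc (sub_eq_zero.1 h6)) hne'
    · intro h
      exact absurd hμ h
  · have h7 : l μ = 0 := Finsupp.notMem_support_iff.1 hμ
    rw [h7, zero_smul]
    refine Finset.sum_eq_zero fun ν hν => ?_
    have h6 := h5 ν hν
    rw [mul_eq_zero] at h6
    rcases h6 with h6 | h6
    · rw [h6, zero_smul]
    · exact absurd ((hc (sub_eq_zero.1 h6)) ▸ hν) hμ

end lin

section main

variable {K : Type*} [Field K]

/-- the eigenvector of `D_0` from the eigenvector of its conjugate -/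
theorem D0_of_D1 (q t : K) (hq : ∀ k : ℕ, 0 < k → (1 : K) - q ^ k ≠ 0) (w : SymF K) (a : K)
    (hw : D1 q t w = a • w) :
    D0 q t (pleth (fun k => (1 - q ^ k)⁻¹) w) = a • pleth (fun k => (1 - q ^ k)⁻¹) w := by
  have h1 := pleth_D0 q t (pleth (fun k => (1 - q ^ k)⁻¹) w)
  rw [pleth_pleth_inv (fun k => 1 - q ^ k) hq, hw] at h1
  have h2 := pleth_inv_pleth (fun k => 1 - q ^ k) hq
    (D0 q t (pleth (fun k => (1 - q ^ k)⁻¹) w))
  rw [h1, map_smul] at h2
  exact h2.symm

variable [CharZero K]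

theorem span_of_D1 (q t : K) (hqt : AlgebraicIndependent ℚ ![q, t])
    (hq : ∀ k : ℕ, 0 < k → (1 : K) - q ^ k ≠ 0) (ht : ∀ k : ℕ, 0 < k → (1 : K) - t ^ k ≠ 0)
    (w : YoungDiagram → SymF K)
    (h1 : ∀ μ, w μ ∈ Submodule.span K {f | ∃ l, dom l μ ∧ f = hl K l.rowLens})
    (h2 : ∀ μ, D1 q t (w μ) = (1 - ((1 - q) * (1 - t)) * Bmu q t μ) • w μ)
    (h3 : ∀ μ, w μ ≠ 0) :
    Submodule.span K (Set.range fun μ => pleth (fun k => (1 - q ^ k)⁻¹) (w μ)) = ⊤ := by
  have hM : (1 - q) * (1 - t) ≠ 0 := by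
    have h1 := hq 1 one_pos
    have h2 := ht 1 one_pos
    rw [pow_one] at h1 h2
    exact mul_ne_zero h1 h2
  have hn : ∀ n, Submodule.span K {v | ∃ κ ∈ diags n, v = hl K κ.rowLens} =
      Submodule.span K {v | ∃ κ ∈ diags n, v = w κ} := by
    intro n
    refine Pool.Agent.Lib.MP_0e7911_co_h31.span_eq_of_eigen (diags n) (D1 q t)
      (fun ν => 1 - ((1 - q) * (1 - t)) * Bmu q t ν)
      (Pool.Agent.Lib.MP_0e7911_co_h31.eig_injective hqt hM)
      (fun κ => hl K κ.rowLens) w ?_ (fun ν _ => h3 ν) (fun ν _ => h2 ν)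
    intro ν hν
    refine Submodule.span_mono ?_ (h1 ν)
    rintro _ ⟨κ, hκ, rfl⟩
    exact ⟨κ, mem_diags.2 (hκ.1.trans (mem_diags.1 hν)), rfl⟩
  have htop : Submodule.span K (Set.range w) = ⊤ := by
    rw [eq_top_iff]
    intro f _
    have h4 : f ∈ Submodule.span K {f | ∃ μ : YoungDiagram, f = hl K μ.rowLens} := by
      rw [span_hl]
      exact Submodule.mem_top
    refine (Submodule.span_le.2 ?_) h4
    rintro _ ⟨κ, rfl⟩
    have h5 : hl K κ.rowLens ∈ Submodule.span K {v | ∃ κ' ∈ diags κ.card, v = w κ'} := by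
      rw [← hn]
      exact Submodule.subset_span ⟨κ, mem_diags.2 rfl, rfl⟩
    refine Submodule.span_mono ?_ h5
    rintro _ ⟨κ', _, rfl⟩
    exact ⟨κ', rfl⟩
  rw [eq_top_iff]
  intro f _
  have h4 : pleth (fun k => 1 - q ^ k) f ∈ Submodule.span K (Set.range w) := by
    rw [htop]
    exact Submodule.mem_top
  have h5 := Submodule.mem_map_of_mem
    (f := (pleth (fun k => ((1 : K) - q ^ k)⁻¹)).toLinearMap) h4
  rw [Submodule.map_span] at h5
  have h6 : (pleth (fun k => ((1 : K) - q ^ k)⁻¹)).toLinearMap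
      (pleth (fun k => 1 - q ^ k) f) = f :=
    pleth_inv_pleth (fun k => 1 - q ^ k) hq f
  rw [h6] at h5
  refine Submodule.span_mono ?_ h5
  rintro _ ⟨_, ⟨κ, rfl⟩, rfl⟩
  exact ⟨κ, rfl⟩

omit [CharZero K] in
theorem span_hl_le_schur (μ : YoungDiagram) :
    Submodule.span K {f : SymF K | ∃ l, dom l μ ∧ f = hl K l.rowLens} ≤
      Submodule.span K {s : SymF K | ∃ l, dom l μ ∧ s = schur K l} := by
  refine Submodule.span_le.2 ?_
  rintro _ ⟨l, hl1, rfl⟩
  refine Submodule.span_mono ?_ (hd_mem_schur (K := K) l)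
  rintro _ ⟨ν, hν, rfl⟩
  exact ⟨ν, dom_trans hν hl1, rfl⟩

omit [CharZero K] in
theorem aeval_one_pleth (c : ℕ → K) (f : SymF K) :
    MvPolynomial.aeval (fun _ : ℕ => (1 : K)) (pleth c f) =
      MvPolynomial.aeval (fun j : ℕ => c (j + 1)) f := by
  have h : (MvPolynomial.aeval (fun _ : ℕ => (1 : K))).comp (pleth c) =
      MvPolynomial.aeval (fun j : ℕ => c (j + 1)) := by
    apply MvPolynomial.algHom_ext
    intro j
    rw [AlgHom.comp_apply, pleth, MvPolynomial.aeval_X, MvPolynomial.aeval_X, map_mul,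
      MvPolynomial.aeval_C, MvPolynomial.aeval_X, mul_one]
    rfl
  exact DFunLike.congr_fun h f

omit [CharZero K] in
theorem algInd_swap [Algebra ℚ K] {q t : K} (hqt : AlgebraicIndependent ℚ ![q, t]) :
    AlgebraicIndependent ℚ ![t, q] := by
  have h := hqt.comp (Equiv.swap (0 : Fin 2) 1) (Equiv.injective _)
  have e : ![q, t] ∘ (Equiv.swap (0 : Fin 2) 1) = ![t, q] := by
    funext i
    fin_cases i <;> simp
  rwa [e] at h

/-- **Existence of the modified Macdonald polynomials**, from the existence of the triangular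
eigenvectors of the conjugate of `D_0` for `(q, t)` and for `(t, q)`. -/
theorem exists_modMac_of (q t : K) (hqt : AlgebraicIndependent ℚ ![q, t])
    (h : ∀ μ : YoungDiagram, ∃ w : SymF K,
      w ∈ Submodule.span K {f | ∃ l, dom l μ ∧ f = hl K l.rowLens} ∧
      D1 q t w = (1 - (1 - q) * (1 - t) * Bmu q t μ) • w ∧
      MvPolynomial.aeval (fun j : ℕ => (1 - q ^ (j + 1))⁻¹) w ≠ 0)
    (h' : ∀ μ : YoungDiagram, ∃ w : SymF K,
      w ∈ Submodule.span K {f | ∃ l, dom l μ ∧ f = hl K l.rowLens} ∧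
      D1 t q w = (1 - (1 - t) * (1 - q) * Bmu t q μ) • w ∧
      MvPolynomial.aeval (fun j : ℕ => (1 - t ^ (j + 1))⁻¹) w ≠ 0) :
    ∃ H : YoungDiagram → SymF K, IsModMac q t H := by
  have hq : ∀ k : ℕ, 0 < k → (1 : K) - q ^ k ≠ 0 := by
    apply one_sub_pow_ne
    exact hqt.transcendental 0
  have ht : ∀ k : ℕ, 0 < k → (1 : K) - t ^ k ≠ 0 := by
    apply one_sub_pow_ne
    exact hqt.transcendental 1
  have hM : (1 - q) * (1 - t) ≠ 0 := by
    have h1 := hq 1 one_pos
    have h2 := ht 1 one_pos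
    rw [pow_one] at h1 h2
    exact mul_ne_zero h1 h2
  choose w hw1 hw2 hw3 using h
  choose w' hw1' hw2' hw3' using h'
  have hwne : ∀ μ, w μ ≠ 0 := by
    intro μ h0
    apply hw3 μ
    rw [h0, map_zero]
  let f : YoungDiagram → SymF K := fun μ => pleth (fun k => (1 - q ^ k)⁻¹) (w μ)
  let g : YoungDiagram → SymF K := fun μ => pleth (fun k => (1 - t ^ k)⁻¹) (w' μ.transpose)
  have hqf : ∀ μ, pleth (fun k => 1 - q ^ k) (f μ) = w μ :=
    fun μ => pleth_pleth_inv (fun k => 1 - q ^ k) hq (w μ)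
  have htg : ∀ μ, pleth (fun k => 1 - t ^ k) (g μ) = w' μ.transpose :=
    fun μ => pleth_pleth_inv (fun k => 1 - t ^ k) ht (w' μ.transpose)
  have hfD : ∀ μ, D0 q t (f μ) = (1 - ((1 - q) * (1 - t)) * Bmu q t μ) • f μ :=
    fun μ => D0_of_D1 q t hq (w μ) _ (hw2 μ)
  have hgD : ∀ μ, D0 q t (g μ) = (1 - ((1 - q) * (1 - t)) * Bmu q t μ) • g μ := by
    intro μ
    have h1 := D0_of_D1 t q ht (w' μ.transpose) _ (hw2' μ.transpose)
    rw [D0_symm t q, Bmu_transpose, mul_comm (1 - t) (1 - q)] at h1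
    exact h1
  have hfne : ∀ μ, f μ ≠ 0 := by
    intro μ h0
    have h1 := hqf μ
    rw [h0, map_zero] at h1
    exact hwne μ h1.symm
  have hgne : ∀ μ, g μ ≠ 0 := by
    intro μ h0
    have h1 := htg μ
    rw [h0, map_zero] at h1
    apply hw3' μ.transpose
    rw [← h1, map_zero]
  have hspan : Submodule.span K (Set.range f) = ⊤ :=
    span_of_D1 q t hqt hq ht w hw1 hw2 hwne
  have hgf : ∀ μ, ∃ a : K, g μ = a • f μ := fun μ =>
    eig_unique (D0 q t) (fun ν => 1 - ((1 - q) * (1 - t)) * Bmu q t ν)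
      (Pool.Agent.Lib.MP_0e7911_co_h31.eig_injective hqt hM) f hspan hfne hfD μ (g μ) (hgD μ)
  have hf1 : ∀ μ, MvPolynomial.aeval (fun _ : ℕ => (1 : K)) (f μ) ≠ 0 := by
    intro μ
    have h1 := aeval_one_pleth (fun k => ((1 : K) - q ^ k)⁻¹) (w μ)
    change MvPolynomial.aeval (fun _ : ℕ => (1 : K)) (pleth (fun k => (1 - q ^ k)⁻¹) (w μ)) ≠ 0
    rw [h1]
    exact hw3 μ
  refine ⟨fun μ => (MvPolynomial.aeval (fun _ : ℕ => (1 : K)) (f μ))⁻¹ • f μ, ?_, ?_, ?_⟩
  · intro μ
    rw [map_smul, hqf]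
    exact Submodule.smul_mem _ _ (span_hl_le_schur μ (hw1 μ))
  · intro μ
    obtain ⟨a, ha⟩ := hgf μ
    have ha0 : a ≠ 0 := by
      rintro rfl
      rw [zero_smul] at ha
      exact hgne μ ha
    have hfg : f μ = a⁻¹ • g μ := by
      rw [ha, smul_smul, inv_mul_cancel₀ ha0, one_smul]
    have h3 : pleth (fun k => 1 - t ^ k) (f μ) = a⁻¹ • w' μ.transpose := by
      rw [hfg, map_smul, htg]
    rw [map_smul, h3]
    exact Submodule.smul_mem _ _ (Submodule.smul_mem _ _ (span_hl_le_schur _ (hw1' μ.transpose)))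
  · intro μ
    rw [map_smul, smul_eq_mul, inv_mul_cancel₀ (hf1 μ)]

end main

end Pool.Agent.Lib.MP_0e7911_co_full
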