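import Pool.Agent.Lib.MP_0e7911_co_h13.Mac
import Pool.Agent.Lib.MP_0e7911_co_h31.Spec
import Pool.Agent.Lib.MP_0e7911_co_h31.Dom
import Pool.Agent.Lib.MP_0e7911_co_h88.Mac2

/-!
# The Macdonald operator: `D_0 = id - M Δ`
-/

set_option autoImplicit false

namespace Pool.Agent.Lib.MP_0e7911_co_full

open Finset Pool.Agent.Lib.MP_0e7911_co_h56

/-! ### diagrams of size `n`, and a rank function for the dominance order -/

theorem le_card_of_mem {μ : YoungDiagram} {i j : ℕ} (h : (i, j) ∈ μ) : i < μ.card ∧ j < μ.card := by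
  have key : ∀ (f : ℕ → ℕ × ℕ), Function.Injective f → ∀ n, (∀ k ∈ range n, f k ∈ μ) →
      n ≤ μ.card := by
    intro f hf n hn
    have : ((range n).image f).card ≤ μ.cells.card := by
      apply Finset.card_le_card
      intro c hc
      rw [mem_image] at hc
      obtain ⟨k, hk, rfl⟩ := hc
      exact (YoungDiagram.mem_cells _).2 (hn k hk)
    rwa [Finset.card_image_of_injective _ hf, Finset.card_range] at this
  constructor
  · refine key (fun k => (k, j)) (fun a b hab => (Prod.ext_iff.1 hab).1) (i + 1) ?_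
    intro k hk
    rw [mem_range] at hk
    exact μ.up_left_mem (by omega) le_rfl h
  · refine key (fun k => (i, k)) (fun a b hab => (Prod.ext_iff.1 hab).2) (j + 1) ?_
    intro k hk
    rw [mem_range] at hk
    exact μ.up_left_mem le_rfl (by omega) h

theorem diag_finite (n : ℕ) : {μ : YoungDiagram | μ.card = n}.Finite := by
  apply Set.Finite.of_finite_image (f := YoungDiagram.cells)
  · apply Set.Finite.subset (Finset.finite_toSet (range n ×ˢ range n).powerset)
    rintro _ ⟨μ, hμ, rfl⟩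
    rw [Finset.mem_coe, Finset.mem_powerset]
    rintro ⟨i, j⟩ hc
    rw [YoungDiagram.mem_cells] at hc
    have h := le_card_of_mem hc
    have hμ' : μ.card = n := hμ
    rw [hμ'] at h
    rw [Finset.mem_product, mem_range, mem_range]
    exact h
  · intro μ _ ν _ h
    exact YoungDiagram.ext h

/-- the diagrams of size `n` -/
noncomputable def diags (n : ℕ) : Finset YoungDiagram := (diag_finite n).toFinset

theorem mem_diags {n : ℕ} {μ : YoungDiagram} : μ ∈ diags n ↔ μ.card = n := by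
  rw [diags, Set.Finite.mem_toFinset]
  rfl

theorem ext_rowLen {μ ν : YoungDiagram} (h : ∀ i, μ.rowLen i = ν.rowLen i) : μ = ν := by
  apply YoungDiagram.ext
  ext ⟨i, j⟩
  rw [YoungDiagram.mem_cells, YoungDiagram.mem_cells, YoungDiagram.mem_iff_lt_rowLen,
    YoungDiagram.mem_iff_lt_rowLen, h]

/-- a rank function for the dominance order -/
def drank (μ : YoungDiagram) : ℕ := ∑ k ∈ range (μ.card + 1), ∑ i ∈ range k, μ.rowLen i

theorem drank_lt {l μ : YoungDiagram} (h : dom l μ) (hne : l ≠ μ) : drank μ < drank l := by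
  obtain ⟨hc, hd⟩ := h
  obtain ⟨i, hi⟩ : ∃ i, μ.rowLen i ≠ l.rowLen i := by
    by_contra hcon
    push Not at hcon
    exact hne (ext_rowLen hcon).symm
  have hlt : i < μ.card := by
    rcases Nat.eq_zero_or_pos (μ.rowLen i) with h0 | h0
    · have h1 : 0 < l.rowLen i := by omega
      have := (le_card_of_mem (YoungDiagram.mem_iff_lt_rowLen.2 h1)).1
      omega
    · exact (le_card_of_mem (YoungDiagram.mem_iff_lt_rowLen.2 h0)).1
  rw [drank, drank, hc]
  apply Finset.sum_lt_sum
  · intro k _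
    exact hd k
  · by_cases h1 : ∑ j ∈ range i, μ.rowLen j < ∑ j ∈ range i, l.rowLen j
    · exact ⟨i, mem_range.2 (by omega), h1⟩
    · refine ⟨i + 1, mem_range.2 (by omega), ?_⟩
      have h2 := hd i
      have h3 := hd (i + 1)
      rw [Finset.sum_range_succ, Finset.sum_range_succ] at *
      omega

theorem dom_trans {a b c : YoungDiagram} (h1 : dom a b) (h2 : dom b c) : dom a c :=
  ⟨h1.1.trans h2.1, fun k => (h2.2 k).trans (h1.2 k)⟩

theorem dom_refl (a : YoungDiagram) : dom a a := ⟨rfl, fun _ => le_rfl⟩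

theorem dom_antisymm' {a b : YoungDiagram} (h1 : dom a b) (h2 : dom b a) : a = b := by
  by_contra hne
  have := drank_lt h1 hne
  have := drank_lt h2 (Ne.symm hne)
  omega

theorem take_sum_rowLens (μ : YoungDiagram) (k : ℕ) :
    (μ.rowLens.take k).sum = ∑ i ∈ range k, μ.rowLen i := by
  apply le_antisymm (sum_take_rowLens μ k)
  have h : ∀ k, (μ.rowLens.take k).sum = ∑ i ∈ range (min k (μ.colLen 0)), μ.rowLen i := by
    intro k
    rw [YoungDiagram.rowLens, ← List.map_take, List.take_range, Finset.sum_range, ← List.sum_ofFn,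
      List.ofFn_eq_map]
    rw [← List.map_coe_finRange_eq_range, List.map_map]
    rfl
  rw [h]
  apply le_of_eq
  symm
  apply Finset.sum_subset
  · intro i hi
    rw [mem_range] at hi ⊢
    omega
  · intro i hi hi'
    rw [mem_range] at hi hi'
    by_contra h0
    have h1 : (i, 0) ∈ μ := YoungDiagram.mem_iff_lt_rowLen.2 (Nat.pos_of_ne_zero h0)
    rw [YoungDiagram.mem_iff_lt_colLen] at h1
    omega

theorem list_eq_of_take_sum : ∀ (κ τ : List ℕ), τ.length = κ.length →
    (∀ k, (κ.take k).sum = (τ.take k).sum) → τ = κ := by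
  intro κ
  induction κ with
  | nil =>
    intro τ h _
    exact List.length_eq_zero_iff.1 h
  | cons a κ ih =>
    intro τ h hk
    cases τ with
    | nil => simp at h
    | cons b τ =>
      have h1 := hk 1
      simp only [List.take_succ_cons, List.take_zero, List.sum_cons, List.sum_nil, add_zero] at h1
      subst h1
      congr 1
      apply ih
      · simpa using h
      · intro k
        have h2 := hk (k + 1)
        simp only [List.take_succ_cons, List.sum_cons] at h2
        omega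

section main

variable {K : Type*} [Field K] [CharZero K]

/-- triangularity in terms of diagrams -/
theorem D1_tri (q t : K) (A : Finset YoungDiagram)
    (hA : ∀ ν ∈ A, ∀ κ, dom κ ν → κ ∈ A) (ν : YoungDiagram) (hν : ν ∈ A) :
    D1 q t (hl K ν.rowLens) - cl q t ν.rowLens • hl K ν.rowLens ∈
      Submodule.span K {v | ∃ κ ∈ A, drank ν < drank κ ∧ v = hl K κ.rowLens} := by
  refine Submodule.span_mono ?_ (D1_hl q t ν.rowLens)
  rintro _ ⟨τ, h1, h2, h3, h4, rfl⟩
  obtain ⟨l, hl1, hl2, hl3⟩ := exists_diag (K := K) τ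
  have hd : dom l ν := by
    refine ⟨?_, ?_⟩
    · rw [hl1, h2, ← card_eq_sum_rowLens]
    · intro k
      rw [← take_sum_rowLens]
      exact (h3 k).trans (hl2 k)
  refine ⟨l, hA ν hν l hd, drank_lt hd ?_, hl3⟩
  rintro rfl
  apply h4
  apply list_eq_of_take_sum _ _ h1
  intro k
  apply le_antisymm (h3 k)
  rw [take_sum_rowLens]
  exact hl2 k

/-! ### plethysm -/

omit [CharZero K] in
theorem pleth_pleth_inv (c : ℕ → K) (hc : ∀ k, 0 < k → c k ≠ 0) (f : SymF K) :
    pleth c (pleth (fun k => (c k)⁻¹) f) = f := by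
  have h : (pleth c).comp (pleth (fun k => (c k)⁻¹)) = AlgHom.id K (SymF K) := by
    apply MvPolynomial.algHom_ext
    intro j
    rw [AlgHom.comp_apply, pleth, pleth, MvPolynomial.aeval_X, map_mul, MvPolynomial.aeval_X,
      AlgHom.id_apply, MvPolynomial.aeval_C, ← mul_assoc]
    have : (algebraMap K (SymF K)) (c (j + 1))⁻¹ * MvPolynomial.C (c (j + 1)) = 1 := by
      rw [MvPolynomial.algebraMap_eq, ← map_mul, inv_mul_cancel₀ (hc _ (Nat.succ_pos j)), map_one]
    rw [this, one_mul]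
  exact DFunLike.congr_fun h f

omit [CharZero K] in
theorem pleth_inv_pleth (c : ℕ → K) (hc : ∀ k, 0 < k → c k ≠ 0) (f : SymF K) :
    pleth (fun k => (c k)⁻¹) (pleth c f) = f := by
  have h := pleth_pleth_inv (fun k => (c k)⁻¹) (fun k hk => inv_ne_zero (hc k hk)) f
  simpa only [inv_inv] using h

open Polynomial in
omit [CharZero K] in
theorem pleth_aeval (q t : K) (p : K[X]) (f : SymF K) :
    pleth (fun k => 1 - q ^ k) (aeval (D0 q t) p f) =
      aeval (D1 q t) p (pleth (fun k => 1 - q ^ k) f) := by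
  induction p using Polynomial.induction_on generalizing f with
  | C a =>
    rw [aeval_C, aeval_C, Module.algebraMap_end_apply, Module.algebraMap_end_apply, map_smul]
  | add p r hp hr =>
    rw [map_add, map_add, LinearMap.add_apply, LinearMap.add_apply, map_add, hp, hr]
  | monomial n a ih =>
    rw [pow_succ, ← mul_assoc, map_mul (aeval (D0 q t)) _ X, map_mul (aeval (D1 q t)) _ X,
      Module.End.mul_apply, Module.End.mul_apply, aeval_X, aeval_X, ih, pleth_D0]

theorem aeval_kills (q t : K) (hq : ∀ k : ℕ, 0 < k → (1 : K) - q ^ k ≠ 0)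
    (hsch : ∀ l : YoungDiagram, schur K l ∈
      Submodule.span K {s : SymF K | ∃ ν, dom ν l ∧ s = hl K ν.rowLens})
    (μ : YoungDiagram) (f : SymF K) (hf : pleth (fun k => 1 - q ^ k) f ∈
      Submodule.span K {s : SymF K | ∃ l, dom l μ ∧ s = schur K l})
    (A : Finset YoungDiagram) (hA : ∀ ν, ν ∈ A ↔ dom ν μ) :
    Polynomial.aeval (D0 q t) (∏ ν ∈ A, (Polynomial.X - Polynomial.C (cl q t ν.rowLens))) f = 0 := by
  classical
  have h1 : pleth (fun k => 1 - q ^ k) f ∈
      Submodule.span K {v | ∃ κ ∈ A, v = hl K κ.rowLens} := by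
    refine (Submodule.span_le.2 ?_) hf
    rintro _ ⟨l, hl1, rfl⟩
    refine Submodule.span_mono ?_ (hsch l)
    rintro _ ⟨ν, hν, rfl⟩
    exact ⟨ν, (hA ν).2 (dom_trans hν hl1), rfl⟩
  have h2 := Pool.Agent.Lib.MP_0e7911_co_h31.annihilate (D1 q t)
    (fun ν : YoungDiagram => cl q t ν.rowLens) (fun ν => hl K ν.rowLens) drank A
    (D1_tri q t A (fun ν hν κ hκ => (hA κ).2 (dom_trans hκ ((hA ν).1 hν)))) _ h1
  rw [← pleth_aeval] at h2
  have h3 := pleth_inv_pleth (fun k => 1 - q ^ k) hq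
    (Polynomial.aeval (D0 q t) (∏ ν ∈ A, (Polynomial.X - Polynomial.C (cl q t ν.rowLens))) f)
  rw [h2, map_zero] at h3
  exact h3.symm

/-- `D_0 H_μ = (1 - M B_μ) H_μ` -/
theorem D0_H (q t : K) (hqt : AlgebraicIndependent ℚ ![q, t])
    (hq : ∀ k : ℕ, 0 < k → (1 : K) - q ^ k ≠ 0) (ht : ∀ k : ℕ, 0 < k → (1 : K) - t ^ k ≠ 0)
    (hsch : ∀ l : YoungDiagram, schur K l ∈
      Submodule.span K {s : SymF K | ∃ ν, dom ν l ∧ s = hl K ν.rowLens})
    (htr : ∀ l μ : YoungDiagram, dom l μ → dom μ.transpose l.transpose)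
    (H : YoungDiagram → SymF K) (hH : IsModMac q t H) (μ : YoungDiagram) :
    D0 q t (H μ) = (1 - ((1 - q) * (1 - t)) * Bmu q t μ) • H μ := by
  classical
  have hM : (1 - q) * (1 - t) ≠ 0 := by
    have h1 := hq 1 one_pos
    have h2 := ht 1 one_pos
    rw [pow_one] at h1 h2
    exact mul_ne_zero h1 h2
  have hdom : ∀ ν μ : YoungDiagram, dom ν μ → ν ∈ diags μ.card := fun ν μ h => mem_diags.2 h.1
  let A := (diags μ.card).filter (fun ν => dom ν μ)
  let A' := (diags μ.transpose.card).filter (fun ν => dom ν μ.transpose)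
  let B := (diags μ.card).filter (fun ν => dom ν.transpose μ.transpose)
  have hcard : ∀ ν : YoungDiagram, ν.transpose.card = ν.card := by
    intro ν
    exact Finset.card_map _
  have hA : ∀ ν, ν ∈ A ↔ dom ν μ := by
    intro ν
    rw [mem_filter]
    exact ⟨fun h => h.2, fun h => ⟨hdom _ _ h, h⟩⟩
  have hA' : ∀ ν, ν ∈ A' ↔ dom ν μ.transpose := by
    intro ν
    rw [mem_filter]
    exact ⟨fun h => h.2, fun h => ⟨hdom _ _ h, h⟩⟩
  have hB : ∀ ν, ν ∈ B ↔ dom ν.transpose μ.transpose := by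
    intro ν
    rw [mem_filter]
    refine ⟨fun h => h.2, fun h => ⟨mem_diags.2 ?_, h⟩⟩
    have h1 := h.1
    rwa [hcard, hcard] at h1
  have k1 := aeval_kills q t hq hsch μ (H μ) (hH.tri_q μ) A hA
  have k2 := aeval_kills t q ht hsch μ.transpose (H μ) (hH.tri_t μ) A' hA'
  rw [D0_symm t q] at k2
  have e1 : ∏ ν ∈ A, (Polynomial.X - Polynomial.C (cl q t ν.rowLens)) =
      ∏ ν ∈ A, (Polynomial.X - Polynomial.C (1 - ((1 - q) * (1 - t)) * Bmu q t ν)) := by
    refine Finset.prod_congr rfl fun ν _ => ?_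
    rw [cl_rowLens]
  have e2 : ∏ ν ∈ A', (Polynomial.X - Polynomial.C (cl t q ν.rowLens)) =
      ∏ ν ∈ B, (Polynomial.X - Polynomial.C (1 - ((1 - q) * (1 - t)) * Bmu q t ν)) := by
    refine Finset.prod_nbij' YoungDiagram.transpose YoungDiagram.transpose ?_ ?_ ?_ ?_ ?_
    · intro ν hν
      rw [hB, YoungDiagram.transpose_transpose]
      exact (hA' ν).1 hν
    · intro ν hν
      rw [hA']
      exact (hB ν).1 hν
    · intro ν _
      exact YoungDiagram.transpose_transpose ν
    · intro ν _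
      exact YoungDiagram.transpose_transpose ν
    · intro ν _
      have h := Bmu_transpose q t ν.transpose
      rw [YoungDiagram.transpose_transpose] at h
      rw [cl_rowLens, h, mul_comm (1 - t) (1 - q)]
  rw [e1] at k1
  rw [e2] at k2
  exact Pool.Agent.Lib.MP_0e7911_co_h31.eigen_of_two (D0 q t)
    (fun ν => 1 - ((1 - q) * (1 - t)) * Bmu q t ν)
    (Pool.Agent.Lib.MP_0e7911_co_h31.eig_injective hqt hM) A B μ ((hA μ).2 (dom_refl μ))
    ((hB μ).2 (dom_refl _)) (fun ν h1 h2 => by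
      have h3 := htr _ _ ((hA ν).1 h1)
      have h4 := dom_antisymm' ((hB ν).1 h2) h3
      rw [← YoungDiagram.transpose_transpose ν, h4, YoungDiagram.transpose_transpose]) (H μ) k1 k2

theorem span_H (q t : K) (hqt : AlgebraicIndependent ℚ ![q, t])
    (hq : ∀ k : ℕ, 0 < k → (1 : K) - q ^ k ≠ 0) (ht : ∀ k : ℕ, 0 < k → (1 : K) - t ^ k ≠ 0)
    (hsch : ∀ l : YoungDiagram, schur K l ∈
      Submodule.span K {s : SymF K | ∃ ν, dom ν l ∧ s = hl K ν.rowLens})
    (htr : ∀ l μ : YoungDiagram, dom l μ → dom μ.transpose l.transpose)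
    (H : YoungDiagram → SymF K) (hH : IsModMac q t H) :
    Submodule.span K (Set.range H) = ⊤ := by
  have hM : (1 - q) * (1 - t) ≠ 0 := by
    have h1 := hq 1 one_pos
    have h2 := ht 1 one_pos
    rw [pow_one] at h1 h2
    exact mul_ne_zero h1 h2
  have hn : ∀ n, Submodule.span K {v | ∃ κ ∈ diags n, v =
      pleth (fun k => (1 - q ^ k)⁻¹) (hl K κ.rowLens)} =
      Submodule.span K {v | ∃ κ ∈ diags n, v = H κ} := by
    intro n
    refine Pool.Agent.Lib.MP_0e7911_co_h31.span_eq_of_eigen (diags n) (D0 q t)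
      (fun ν => 1 - ((1 - q) * (1 - t)) * Bmu q t ν)
      (Pool.Agent.Lib.MP_0e7911_co_h31.eig_injective hqt hM)
      (fun κ => pleth (fun k => (1 - q ^ k)⁻¹) (hl K κ.rowLens)) H ?_ ?_ ?_
    · intro ν hν
      have h1 : pleth (fun k => 1 - q ^ k) (H ν) ∈
          Submodule.span K {v | ∃ κ ∈ diags n, v = hl K κ.rowLens} := by
        refine (Submodule.span_le.2 ?_) (hH.tri_q ν)
        rintro _ ⟨l, hl1, rfl⟩
        refine Submodule.span_mono ?_ (hsch l)
        rintro _ ⟨κ, hκ, rfl⟩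
        exact ⟨κ, mem_diags.2 ((dom_trans hκ hl1).1.trans (mem_diags.1 hν)), rfl⟩
      have h2 := Submodule.mem_map_of_mem
        (f := (pleth (fun k => ((1 : K) - q ^ k)⁻¹)).toLinearMap) h1
      rw [Submodule.map_span] at h2
      have h3 : (pleth (fun k => ((1 : K) - q ^ k)⁻¹)).toLinearMap
          (pleth (fun k => 1 - q ^ k) (H ν)) = H ν :=
        pleth_inv_pleth (fun k => 1 - q ^ k) hq (H ν)
      rw [h3] at h2
      refine Submodule.span_mono ?_ h2
      rintro _ ⟨_, ⟨κ, hκ, rfl⟩, rfl⟩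
      exact ⟨κ, hκ, rfl⟩
    · intro ν _ h0
      have := hH.norm ν
      rw [h0, map_zero] at this
      exact zero_ne_one this
    · intro ν _
      exact D0_H q t hqt hq ht hsch htr H hH ν
  rw [eq_top_iff]
  intro f _
  have h1 : pleth (fun k => 1 - q ^ k) f ∈
      Submodule.span K {f | ∃ μ : YoungDiagram, f = hl K μ.rowLens} := by
    rw [span_hl]
    exact Submodule.mem_top
  have h2 := Submodule.mem_map_of_mem
    (f := (pleth (fun k => ((1 : K) - q ^ k)⁻¹)).toLinearMap) h1
  rw [Submodule.map_span] at h2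
  have h3 : (pleth (fun k => ((1 : K) - q ^ k)⁻¹)).toLinearMap
      (pleth (fun k => 1 - q ^ k) f) = f :=
    pleth_inv_pleth (fun k => 1 - q ^ k) hq f
  rw [h3] at h2
  refine (Submodule.span_le.2 ?_) h2
  rintro _ ⟨_, ⟨κ, rfl⟩, rfl⟩
  have h4 : pleth (fun k => (1 - q ^ k)⁻¹) (hl K κ.rowLens) ∈
      Submodule.span K {v | ∃ κ' ∈ diags κ.card, v = H κ'} := by
    rw [← hn]
    exact Submodule.subset_span ⟨κ, mem_diags.2 rfl, rfl⟩
  refine Submodule.span_mono ?_ h4
  rintro _ ⟨κ', _, rfl⟩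
  exact ⟨κ', rfl⟩

omit [CharZero K] in
theorem one_sub_pow_ne [Algebra ℚ K] {x : K} (hx : Transcendental ℚ x) (k : ℕ) (hk : 0 < k) :
    (1 : K) - x ^ k ≠ 0 := by
  intro h
  apply hx
  refine ⟨1 - Polynomial.X ^ k, ?_, ?_⟩
  · intro h0
    have h1 := congrArg (Polynomial.eval 0) h0
    simp [hk.ne'] at h1
  · simpa using h

theorem D0_eq_of (q t : K) (hqt : AlgebraicIndependent ℚ ![q, t])
    (hsch : ∀ l : YoungDiagram, schur K l ∈
      Submodule.span K {s : SymF K | ∃ ν, dom ν l ∧ s = hl K ν.rowLens})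
    (htr : ∀ l μ : YoungDiagram, dom l μ → dom μ.transpose l.transpose)
    (H : YoungDiagram → SymF K) (hH : IsModMac q t H) (Δ : Module.End K (SymF K))
    (hΔ : IsDelta q t H Δ) (f : SymF K) : f - ((1 - q) * (1 - t)) • Δ f = D0 q t f := by
  have hq : ∀ k : ℕ, 0 < k → (1 : K) - q ^ k ≠ 0 := by
    apply one_sub_pow_ne
    exact hqt.transcendental 0
  have ht : ∀ k : ℕ, 0 < k → (1 : K) - t ^ k ≠ 0 := by
    apply one_sub_pow_ne
    exact hqt.transcendental 1
  have h1 : f ∈ Submodule.span K (Set.range H) := by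
    rw [span_H q t hqt hq ht hsch htr H hH]
    exact Submodule.mem_top
  induction h1 using Submodule.span_induction with
  | mem x hx =>
    obtain ⟨μ, rfl⟩ := hx
    rw [D0_H q t hqt hq ht hsch htr H hH μ, hΔ μ, sub_smul, one_smul, smul_smul]
  | zero => rw [map_zero, map_zero, smul_zero, sub_zero]
  | add x y _ _ hx hy =>
    rw [map_add, map_add, ← hx, ← hy, smul_add]
    abel
  | smul a x _ hx =>
    rw [map_smul, map_smul, ← hx, smul_sub, smul_comm]

/-- `D_0 = id - M Δ` -/
theorem D0_eq (q t : K) (hqt : AlgebraicIndependent ℚ ![q, t])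
    (H : YoungDiagram → SymF K) (hH : IsModMac q t H) (Δ : Module.End K (SymF K))
    (hΔ : IsDelta q t H Δ) (f : SymF K) : f - ((1 - q) * (1 - t)) • Δ f = D0 q t f :=
  D0_eq_of q t hqt (fun l => schur_mem l)
    (fun _ _ h => Pool.Agent.Lib.MP_0e7911_co_h31.dom_transpose h) H hH Δ hΔ f

end main

end Pool.Agent.Lib.MP_0e7911_co_full
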