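import Pool.Agent.Lib.MP_0e7911_co_full.PathDefs

/-!
# Products of complete homogeneous functions over lists, and the eigenvalues
-/

set_option autoImplicit false

namespace Pool.Agent.Lib.MP_0e7911_co_full

open Finset Pool.Agent.Lib.MP_0e7911_co_h56

/-- `h_κ` of a list -/
noncomputable def hl (K : Type*) [Field K] (κ : List ℕ) : SymF K := (κ.map (homog K)).prod

/-- the eigenvalue of a list: `1 - M B_κ` -/
def cl {K : Type*} [Field K] (q t : K) : List ℕ → K
  | [] => 1
  | n :: κ => (1 - t) * q ^ n + t * cl q t κ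

@[simp] theorem hl_nil (K : Type*) [Field K] : hl K [] = 1 := by simp [hl]

@[simp] theorem hl_cons (K : Type*) [Field K] (n : ℕ) (κ : List ℕ) :
    hl K (n :: κ) = homog K n * hl K κ := by simp [hl]

@[simp] theorem cl_nil {K : Type*} [Field K] (q t : K) : cl q t [] = 1 := rfl

theorem cl_cons {K : Type*} [Field K] (q t : K) (n : ℕ) (κ : List ℕ) :
    cl q t (n :: κ) = (1 - t) * q ^ n + t * cl q t κ := rfl

end Pool.Agent.Lib.MP_0e7911_co_full
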