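import Pool.Agent.Lib.MP_0e7911_co_h13.FPsum
import Pool.Agent.Lib.MP_0e7911_co_h13.MacDefs

/-!
# Triangularity of the Macdonald operator `D_0` on the products `h_κ`
-/

set_option autoImplicit false

namespace Pool.Agent.Lib.MP_0e7911_co_full

open Finset Pool.Agent.Lib.MP_0e7911_co_h56

variable {K : Type*} [Field K]

/-- `g ↦ g[X + (1-t) y]` -/
noncomputable def io1 (t : K) : SymF K →ₐ[K] Polynomial (SymF K) :=
  MvPolynomial.aeval (fun j => Polynomial.C (MvPolynomial.X j) +
    Polynomial.C (MvPolynomial.C (1 - t ^ (j + 1))) * Polynomial.X ^ (j + 1))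

/-- the coefficients of `Ω[-z X (1 - q)]` -/
noncomputable def gam (q : K) (h : ℕ) : SymF K := pleth (fun k => 1 - q ^ k) (et K h)

/-- `y^j G ↦ γ_{j-b} G` -/
noncomputable def Lm (q : K) (b : ℕ) : Polynomial (SymF K) →ₗ[K] SymF K :=
  polyLin (fun j => if b ≤ j then LinearMap.mulLeft K (gam q (j - b)) else 0)

/-- the conjugate of `D_0` -/
noncomputable def D1 (q t : K) : Module.End K (SymF K) := Lm q 0 ∘ₗ (io1 t).toLinearMap

theorem polyLin_monomial {W : Type*} [AddCommGroup W] [Module K W] (f : ℕ → SymF K →ₗ[K] W)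
    (j : ℕ) (x : SymF K) : polyLin f (Polynomial.monomial j x) = f j x := by
  change (Polynomial.monomial j x).sum (fun h G => f h G) = _
  rw [Polynomial.sum_monomial_index]
  simp

theorem Lm_monomial (q : K) (b j : ℕ) (x : SymF K) :
    Lm q b (Polynomial.monomial j x) = if b ≤ j then gam q (j - b) * x else 0 := by
  rw [Lm, polyLin_monomial]
  split_ifs <;> simp

theorem Lm_eq_sum (q : K) (b : ℕ) (P : Polynomial (SymF K)) (N : ℕ) (hN : P.natDegree < N) :
    Lm q b P = ∑ j ∈ range N, if b ≤ j then gam q (j - b) * P.coeff j else 0 := by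
  conv_lhs => rw [Polynomial.as_sum_range' P N hN]
  rw [map_sum]
  exact Finset.sum_congr rfl fun j _ => Lm_monomial q b j _

theorem dB_monomial (j : ℕ) (x : SymF K) :
    dB K (Polynomial.monomial j x) = et K j * x := by
  rw [dB, polyLin_monomial]
  simp

/-! ### conjugation -/

theorem pleth_C (c : ℕ → K) (a : K) : pleth c (MvPolynomial.C a) = MvPolynomial.C a :=
  (pleth c).commutes a

theorem map_ioA (q t : K) (f : SymF K) :
    Polynomial.mapAlgHom (pleth (fun k => 1 - q ^ k)) (ioA q t f) =
      io1 t (pleth (fun k => 1 - q ^ k) f) := by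
  have h : (Polynomial.mapAlgHom (pleth (fun k => 1 - q ^ k))).comp (ioA q t) =
      (io1 t).comp (pleth (fun k => 1 - q ^ k)) := by
    apply MvPolynomial.algHom_ext
    intro j
    have e1 : ioA q t (MvPolynomial.X j) = Polynomial.C (MvPolynomial.X j) +
        Polynomial.C (MvPolynomial.C ((1 - q ^ (j + 1)) * (1 - t ^ (j + 1)))) *
          Polynomial.X ^ (j + 1) := by
      rw [ioA, MvPolynomial.aeval_X]
    have e2 : pleth (fun k => 1 - q ^ k) (MvPolynomial.X j : SymF K) =
        MvPolynomial.C (1 - q ^ (j + 1)) * MvPolynomial.X j := by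
      rw [pleth, MvPolynomial.aeval_X]
    have e3 : io1 t (MvPolynomial.X j : SymF K) = Polynomial.C (MvPolynomial.X j) +
        Polynomial.C (MvPolynomial.C (1 - t ^ (j + 1))) * Polynomial.X ^ (j + 1) := by
      rw [io1, MvPolynomial.aeval_X]
    have e4 : io1 t (MvPolynomial.C (1 - q ^ (j + 1)) : SymF K) =
        Polynomial.C (MvPolynomial.C (1 - q ^ (j + 1))) := (io1 t).commutes _
    rw [AlgHom.comp_apply, AlgHom.comp_apply, e1, e2, map_mul (io1 t), e3, e4]
    rw [map_add, map_mul (Polynomial.mapAlgHom (pleth (fun k => 1 - q ^ k)))]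
    have e5 : ∀ g : SymF K, Polynomial.mapAlgHom (pleth (fun k => 1 - q ^ k)) (Polynomial.C g) =
        Polynomial.C (pleth (fun k => 1 - q ^ k) g) := by
      intro g
      simp [Polynomial.mapAlgHom]
    have e6 : Polynomial.mapAlgHom (pleth (fun k => 1 - q ^ k))
        (Polynomial.X ^ (j + 1) : Polynomial (SymF K)) = Polynomial.X ^ (j + 1) := by
      simp [Polynomial.mapAlgHom]
    rw [e5, e5, e6, e2, pleth_C]
    simp only [map_mul]
    ring
  exact DFunLike.congr_fun h f

theorem pleth_dB (q : K) (P : Polynomial (SymF K)) :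
    pleth (fun k => 1 - q ^ k) (dB K P) =
      Lm q 0 (Polynomial.mapAlgHom (pleth (fun k => 1 - q ^ k)) P) := by
  induction P using Polynomial.induction_on' with
  | add a b ha hb => rw [map_add, map_add, ha, hb, map_add, map_add]
  | monomial j x =>
    have h : Polynomial.mapAlgHom (pleth (fun k => 1 - q ^ k)) (Polynomial.monomial j x) =
        Polynomial.monomial j (pleth (fun k => 1 - q ^ k) x) := by
      simp [Polynomial.mapAlgHom]
    rw [h, dB_monomial, Lm_monomial, map_mul, if_pos (Nat.zero_le _), Nat.sub_zero]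
    rfl

theorem pleth_D0 (q t : K) (f : SymF K) :
    pleth (fun k => 1 - q ^ k) (D0 q t f) = D1 q t (pleth (fun k => 1 - q ^ k) f) := by
  change pleth (fun k => 1 - q ^ k) (dB K (ioA q t f)) =
    Lm q 0 (io1 t (pleth (fun k => 1 - q ^ k) f))
  rw [pleth_dB, map_ioA]

theorem ioA_symm (q t : K) : ioA q t = ioA t q := by
  apply MvPolynomial.algHom_ext
  intro j
  rw [ioA, ioA, MvPolynomial.aeval_X, MvPolynomial.aeval_X, mul_comm (1 - q ^ (j + 1))]

theorem D0_symm (q t : K) : D0 q t = D0 t q := by
  rw [D0, D0, ioA_symm]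

/-! ### generating functions -/

section gen

variable [CharZero K]

/-- `h_a[1 - t]` -/
def cc (t : K) (a : ℕ) : K := if a = 0 then 1 else 1 - t

omit [CharZero K] in
theorem newt_cc (t : K) : B3.Newt (fun i => 1 - t ^ i) (cc t) := by
  refine ⟨by simp [cc], ?_⟩
  intro n hn
  obtain ⟨m, rfl⟩ : ∃ m, n = m + 1 := ⟨n - 1, by omega⟩
  have key : ∀ m : ℕ, ∑ i ∈ range m, (1 - t ^ (i + 1)) * (1 - t) + (1 - t ^ (m + 1)) =
      ((m + 1 : ℕ) : K) * (1 - t) := by
    intro m
    induction m with
    | zero => simp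
    | succ m ih =>
      rw [Finset.sum_range_succ]
      have : ∑ i ∈ range m, (1 - t ^ (i + 1)) * (1 - t) =
        ((m + 1 : ℕ) : K) * (1 - t) - (1 - t ^ (m + 1)) := by rw [← ih]; ring
      rw [this]
      push_cast
      ring
  have h1 := B3.sum_range_Icc (fun i => (1 - t ^ i) * cc t (m + 1 - i)) (m + 1)
  have h2 : cc t (m + 1) = 1 - t := by rw [cc, if_neg (Nat.succ_ne_zero m)]
  rw [h2, ← key m]
  simp only [pow_zero, sub_self, zero_mul, zero_add] at h1
  rw [← h1, Finset.sum_range_succ, Finset.sum_range_succ']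
  simp only [pow_zero, sub_self, zero_mul, add_zero, Nat.sub_self]
  congr 1
  · refine Finset.sum_congr rfl fun i hi => ?_
    rw [mem_range] at hi
    rw [cc, if_neg (by omega)]
  · rw [cc, if_pos rfl, mul_one]

theorem poly_natCast_cancel (n : ℕ) (a b : Polynomial (SymF K)) (hn : 0 < n)
    (h : (n : Polynomial (SymF K)) * a = (n : Polynomial (SymF K)) * b) : a = b := by
  ext1 j
  have h1 := congrArg (fun P : Polynomial (SymF K) => P.coeff j) h
  simp only [Polynomial.coeff_natCast_mul] at h1
  exact B3.natCast_cancel n _ _ hn h1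

/-- `h_m[X + (1-t) y] = ∑_a h_{m-a} c_a y^a` -/
theorem io1_homog (t : K) (m : ℕ) : io1 t (homog K m) =
    ∑ a ∈ range (m + 1), Polynomial.monomial a (cc t a • homog K (m - a)) := by
  have h0 := (B3.newt_homog (K := K)).map (io1 t).toRingHom
  have h1 := ((newt_cc t).map ((Polynomial.C (R := SymF K)).comp
    (MvPolynomial.C (σ := ℕ)))).scale (Polynomial.X : Polynomial (SymF K))
  have h2 := (B3.newt_homog (K := K)).map (Polynomial.C (R := SymF K))
  have h3 := (h1.prod h2).congr (P' := fun i => (io1 t).toRingHom (psum K i)) (by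
    intro i hi
    obtain ⟨j, rfl⟩ : ∃ j, i = j + 1 := ⟨i - 1, by omega⟩
    have : (io1 t).toRingHom (psum K (j + 1)) = Polynomial.C (MvPolynomial.X j) +
        Polynomial.C (MvPolynomial.C (1 - t ^ (j + 1))) * Polynomial.X ^ (j + 1) := by
      change io1 t (psum K (j + 1)) = _
      rw [psum, io1, MvPolynomial.aeval_X]
      rfl
    rw [this, psum, RingHom.comp_apply]
    change _ + Polynomial.C (MvPolynomial.X j) = _
    ring)
  have h4 := B3.Newt.unique poly_natCast_cancel h0 h3 m
  change io1 t (homog K m) = _ at h4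
  rw [h4]
  refine Finset.sum_congr rfl fun a _ => ?_
  rw [← Polynomial.C_mul_X_pow_eq_monomial, RingHom.comp_apply, MvPolynomial.smul_eq_C_mul,
    Polynomial.C_mul]
  ring

/-- `H(z) G(z) = H(q z)` -/
theorem homog_gam (q : K) (n : ℕ) :
    ∑ i ∈ range (n + 1), homog K i * gam q (n - i) = q ^ n • homog K n := by
  have h1 := (B3.newt_homog (K := K)).prod
    ((B3.newt_elem (K := K)).map (pleth (fun k => 1 - q ^ k)).toRingHom)
  have h2 := (B3.newt_homog (K := K)).scale (MvPolynomial.C q)
  have h3 := h1.congr (P' := fun i => MvPolynomial.C q ^ i * psum K i) (by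
    intro i hi
    change psum K i + pleth (fun k => 1 - q ^ k) (- psum K i) = _
    rw [map_neg, B3.pleth_psum _ i hi, map_sub, map_one, map_pow]
    ring)
  have h4 := B3.Newt.unique B3.natCast_cancel h3 h2 n
  have h5 : MvPolynomial.C q ^ n * homog K n = q ^ n • homog K n := by
    rw [MvPolynomial.smul_eq_C_mul, map_pow]
  rw [h5] at h4
  rw [← h4]
  rfl

theorem sum_F (q : K) (m b j : ℕ) :
    ∑ a ∈ range (m + 1), (if b ≤ a + j then homog K (m - a) * gam q (a + j - b) else 0) =
      (if b ≤ m + j then q ^ (m + j - b) • homog K (m + j - b) else 0) -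
        ∑ c ∈ Ioc b j, homog K (m + c - b) * gam q (j - c) := by
  by_cases hb : b ≤ m + j
  · rw [if_pos hb, ← homog_gam, ← Finset.sum_range_reflect]
    set n := m + j - b with hn
    have h1 : ∑ i ∈ range (m + 1), (if b ≤ m + 1 - 1 - i + j then
        homog K (m - (m + 1 - 1 - i)) * gam q (m + 1 - 1 - i + j - b) else 0) =
        ∑ i ∈ (range (n + 1)).filter (fun i => i ≤ m), homog K i * gam q (n - i) := by
      rw [← Finset.sum_filter]
      refine Finset.sum_congr ?_ ?_
      · ext i
        simp only [mem_filter, mem_range]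
        omega
      · intro i hi
        rw [mem_filter, mem_range] at hi
        have e1 : m - (m + 1 - 1 - i) = i := by omega
        have e2 : m + 1 - 1 - i + j - b = n - i := by omega
        rw [e1, e2]
    have h2 : ∑ c ∈ Ioc b j, homog K (m + c - b) * gam q (j - c) =
        ∑ i ∈ (range (n + 1)).filter (fun i => ¬ i ≤ m), homog K i * gam q (n - i) := by
      refine Finset.sum_bij (fun c _ => m + c - b) ?_ ?_ ?_ ?_
      · intro c hc
        rw [mem_Ioc] at hc
        simp only [mem_filter, mem_range]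
        omega
      · intro c hc c' hc' h
        rw [mem_Ioc] at hc hc'
        omega
      · intro i hi
        simp only [mem_filter, mem_range] at hi
        refine ⟨i + b - m, ?_, ?_⟩
        · rw [mem_Ioc]
          omega
        · omega
      · intro c hc
        rw [mem_Ioc] at hc
        have e1 : n - (m + c - b) = j - c := by omega
        rw [e1]
    rw [h1, h2, eq_sub_iff_add_eq, Finset.sum_filter_add_sum_filter_not]
  · rw [if_neg hb, Finset.Ioc_eq_empty (by omega), Finset.sum_empty, sub_zero]
    refine Finset.sum_eq_zero fun a ha => ?_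
    rw [mem_range] at ha
    rw [if_neg (by omega)]

theorem key_coeff (q t : K) (m b j : ℕ) :
    ∑ a ∈ range (m + 1), (if b ≤ a + j then
      cc t a • (homog K (m - a) * gam q (a + j - b)) else 0) =
      t • (if b ≤ j then homog K m * gam q (j - b) else 0) +
      (1 - t) • ((if b ≤ m + j then q ^ (m + j - b) • homog K (m + j - b) else 0) -
        ∑ c ∈ Ioc b j, homog K (m + c - b) * gam q (j - c)) := by
  rw [← sum_F, Finset.sum_range_succ', Finset.sum_range_succ', smul_add, Finset.smul_sum]
  have h1 : ∑ a ∈ range m, (if b ≤ a + 1 + j then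
      cc t (a + 1) • (homog K (m - (a + 1)) * gam q (a + 1 + j - b)) else 0) =
      ∑ a ∈ range m, (1 - t) • (if b ≤ a + 1 + j then
      homog K (m - (a + 1)) * gam q (a + 1 + j - b) else 0) := by
    refine Finset.sum_congr rfl fun a _ => ?_
    rw [cc, if_neg (Nat.succ_ne_zero a)]
    split_ifs
    · rfl
    · rw [smul_zero]
  rw [h1, cc, if_pos rfl, one_smul, zero_add, Nat.sub_zero]
  module

/-- The recursion: `D_{-b}(h_m g)`. -/
theorem Lm_rec (q t : K) (m b N : ℕ) (P : Polynomial (SymF K)) (hN : P.natDegree < N) :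
    Lm q b (io1 t (homog K m) * P) = t • (homog K m * Lm q b P) +
      (1 - t) • ((∑ c ∈ range N, if b ≤ m + c then
        q ^ (m + c - b) • (homog K (m + c - b) * P.coeff c) else 0) -
        ∑ c ∈ Ioo b N, homog K (m + c - b) * Lm q c P) := by
  have hL : Lm q b (io1 t (homog K m) * P) = ∑ j ∈ range N, (∑ a ∈ range (m + 1),
      (if b ≤ a + j then cc t a • (homog K (m - a) * gam q (a + j - b)) else 0)) * P.coeff j := by
    conv_lhs => rw [Polynomial.as_sum_range' P N hN, io1_homog, Finset.sum_mul_sum,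
      Finset.sum_comm, map_sum]
    refine Finset.sum_congr rfl fun j _ => ?_
    rw [map_sum, Finset.sum_mul]
    refine Finset.sum_congr rfl fun a _ => ?_
    rw [Polynomial.monomial_mul_monomial, Lm_monomial]
    split_ifs
    · simp only [MvPolynomial.smul_eq_C_mul]
      ring
    · rw [zero_mul]
  rw [hL]
  simp only [key_coeff]
  have hR : ∀ c, Lm q c P = ∑ j ∈ range N, if c ≤ j then gam q (j - c) * P.coeff j else 0 :=
    fun c => Lm_eq_sum q c P N hN
  simp only [hR, Finset.mul_sum]
  rw [Finset.sum_comm (s := Ioo b N), Finset.smul_sum, ← Finset.sum_sub_distrib, Finset.smul_sum,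
    ← Finset.sum_add_distrib]
  refine Finset.sum_congr rfl fun j hj => ?_
  rw [mem_range] at hj
  have h1 : ∑ c ∈ Ioo b N, homog K (m + c - b) *
      (if c ≤ j then gam q (j - c) * P.coeff j else 0) =
      (∑ c ∈ Ioc b j, homog K (m + c - b) * gam q (j - c)) * P.coeff j := by
    rw [Finset.sum_mul]
    simp only [mul_ite, mul_zero]
    rw [← Finset.sum_filter]
    refine Finset.sum_congr ?_ ?_
    · ext c
      simp only [mem_filter, mem_Ioo, mem_Ioc]
      omega
    · intro c _
      rw [mul_assoc]
  rw [h1, add_mul, smul_mul_assoc, smul_mul_assoc, sub_mul]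
  congr 1
  · congr 1
    split_ifs
    · rw [mul_assoc]
    · rw [zero_mul, mul_zero]
  · congr 2
    split_ifs
    · rw [smul_mul_assoc]
    · rw [zero_mul]

/-! ### the span -/

/-- the span of the `h_τ` where `τ` has the length of `κ`, sum `|κ| - b`, and partial sums at
least those of `κ` minus `b` -/
noncomputable def Sp (κ : List ℕ) (b : ℕ) : Submodule K (SymF K) :=
  Submodule.span K {f | ∃ τ : List ℕ, τ.length = κ.length ∧ τ.sum + b = κ.sum ∧
    (∀ k, (κ.take k).sum ≤ (τ.take k).sum + b) ∧ f = hl K τ}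

omit [CharZero K] in
theorem homog_mul_mem {κ : List ℕ} {m a b c : ℕ} (h : a + b = m + c) {f : SymF K}
    (hf : f ∈ Sp (K := K) κ c) : homog K a * f ∈ Sp (K := K) (m :: κ) b := by
  rw [Sp] at hf
  induction hf using Submodule.span_induction with
  | mem x hx =>
    obtain ⟨τ, h1, h2, h3, rfl⟩ := hx
    refine Submodule.subset_span ⟨a :: τ, ?_, ?_, ?_, ?_⟩
    · simp [h1]
    · simp only [List.sum_cons]
      omega
    · intro k
      cases k with
      | zero => simp
      | succ k =>
        simp only [List.take_succ_cons, List.sum_cons]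
        have := h3 k
        omega
    · rw [hl_cons]
  | zero => rw [mul_zero]; exact Submodule.zero_mem _
  | add x y _ _ hx hy => rw [mul_add]; exact Submodule.add_mem _ hx hy
  | smul r x _ hx => rw [mul_smul_comm]; exact Submodule.smul_mem _ _ hx

theorem coeff_io1_mem (t : K) (κ : List ℕ) :
    ∀ b, (io1 t (hl K κ)).coeff b ∈ Sp (K := K) κ b := by
  induction κ with
  | nil =>
    intro b
    rw [hl_nil, map_one, Polynomial.coeff_one]
    split_ifs with hb
    · subst hb
      exact Submodule.subset_span ⟨[], rfl, rfl, by simp, by simp⟩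
    · exact Submodule.zero_mem _
  | cons m κ ih =>
    intro b
    rw [hl_cons, map_mul, io1_homog, Finset.sum_mul, Polynomial.finsetSum_coeff]
    refine Submodule.sum_mem _ fun a ha => ?_
    rw [mem_range] at ha
    by_cases hab : a ≤ b
    · obtain ⟨c, rfl⟩ : ∃ c, b = c + a := ⟨b - a, by omega⟩
      rw [Polynomial.coeff_monomial_mul, smul_mul_assoc]
      exact Submodule.smul_mem _ _ (homog_mul_mem (by omega) (ih c))
    · rw [← Polynomial.C_mul_X_pow_eq_monomial, mul_assoc, Polynomial.coeff_C_mul,
        Polynomial.coeff_X_pow_mul', if_neg hab, mul_zero]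
      exact Submodule.zero_mem _

theorem coeff_io1_zero (t : K) (κ : List ℕ) : (io1 t (hl K κ)).coeff 0 = hl K κ := by
  induction κ with
  | nil => rw [hl_nil, map_one, Polynomial.coeff_one, if_pos rfl]
  | cons m κ ih =>
    rw [hl_cons, map_mul, Polynomial.mul_coeff_zero, ih, io1_homog, Polynomial.finsetSum_coeff,
      Finset.sum_eq_single 0]
    · rw [Polynomial.coeff_monomial, if_pos rfl, cc, if_pos rfl, one_smul, Nat.sub_zero]
    · intro a _ ha
      rw [Polynomial.coeff_monomial, if_neg ha]
    · intro h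
      exact absurd (mem_range.2 (Nat.succ_pos m)) h

theorem Lm_io1_mem (q t : K) (κ : List ℕ) :
    ∀ b, Lm q b (io1 t (hl K κ)) ∈ Sp (K := K) κ b := by
  induction κ with
  | nil =>
    intro b
    rw [hl_nil, map_one, ← Polynomial.monomial_zero_one, Lm_monomial]
    split_ifs with hb
    · have hb0 : b = 0 := by omega
      subst hb0
      have : gam q (0 - 0) * (1 : SymF K) = hl K [] := by
        rw [Nat.sub_zero, gam, et, elem]
        simp
      rw [this]
      exact Submodule.subset_span ⟨[], rfl, rfl, by simp, rfl⟩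
    · exact Submodule.zero_mem _
  | cons m κ ih =>
    intro b
    rw [hl_cons, map_mul, Lm_rec q t m b _ _ (Nat.lt_succ_self _)]
    refine Submodule.add_mem _ (Submodule.smul_mem _ _ (homog_mul_mem rfl (ih b)))
      (Submodule.smul_mem _ _ (Submodule.sub_mem _ (Submodule.sum_mem _ fun c _ => ?_)
        (Submodule.sum_mem _ fun c hc => ?_)))
    · split_ifs with h
      · exact Submodule.smul_mem _ _ (homog_mul_mem (by omega) (coeff_io1_mem t κ c))
      · exact Submodule.zero_mem _
    · rw [mem_Ioo] at hc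
      exact homog_mul_mem (by omega) (ih c)

/-- the strict version of the span, for `b = 0` -/
noncomputable def Sp0 (κ : List ℕ) : Submodule K (SymF K) :=
  Submodule.span K {f | ∃ τ : List ℕ, τ.length = κ.length ∧ τ.sum = κ.sum ∧
    (∀ k, (κ.take k).sum ≤ (τ.take k).sum) ∧ τ ≠ κ ∧ f = hl K τ}

omit [CharZero K] in
theorem homog_mul_mem0 {κ : List ℕ} {m : ℕ} {f : SymF K}
    (hf : f ∈ Sp0 (K := K) κ) : homog K m * f ∈ Sp0 (K := K) (m :: κ) := by
  rw [Sp0] at hf
  induction hf using Submodule.span_induction with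
  | mem x hx =>
    obtain ⟨τ, h1, h2, h3, h4, rfl⟩ := hx
    refine Submodule.subset_span ⟨m :: τ, ?_, ?_, ?_, ?_, ?_⟩
    · simp [h1]
    · simp only [List.sum_cons]
      omega
    · intro k
      cases k with
      | zero => simp
      | succ k =>
        simp only [List.take_succ_cons, List.sum_cons]
        have := h3 k
        omega
    · intro h
      exact h4 (List.tail_eq_of_cons_eq h)
    · rw [hl_cons]
  | zero => rw [mul_zero]; exact Submodule.zero_mem _
  | add x y _ _ hx hy => rw [mul_add]; exact Submodule.add_mem _ hx hy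
  | smul r x _ hx => rw [mul_smul_comm]; exact Submodule.smul_mem _ _ hx

omit [CharZero K] in
theorem homog_mul_mem1 {κ : List ℕ} {m c : ℕ} (hc : 0 < c) {f : SymF K}
    (hf : f ∈ Sp (K := K) κ c) : homog K (m + c) * f ∈ Sp0 (K := K) (m :: κ) := by
  rw [Sp] at hf
  induction hf using Submodule.span_induction with
  | mem x hx =>
    obtain ⟨τ, h1, h2, h3, rfl⟩ := hx
    refine Submodule.subset_span ⟨(m + c) :: τ, ?_, ?_, ?_, ?_, ?_⟩
    · simp [h1]
    · simp only [List.sum_cons]
      omega
    · intro k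
      cases k with
      | zero => simp
      | succ k =>
        simp only [List.take_succ_cons, List.sum_cons]
        have := h3 k
        omega
    · intro h
      have := List.head_eq_of_cons_eq h
      omega
    · rw [hl_cons]
  | zero => rw [mul_zero]; exact Submodule.zero_mem _
  | add x y _ _ hx hy => rw [mul_add]; exact Submodule.add_mem _ hx hy
  | smul r x _ hx => rw [mul_smul_comm]; exact Submodule.smul_mem _ _ hx

theorem D1_hl_mem (q t : K) (κ : List ℕ) : D1 q t (hl K κ) - cl q t κ • hl K κ ∈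
    Sp0 (K := K) κ := by
  change Lm q 0 (io1 t (hl K κ)) - _ ∈ _
  induction κ with
  | nil =>
    rw [hl_nil, map_one, ← Polynomial.monomial_zero_one, Lm_monomial, if_pos le_rfl]
    have : gam q (0 - 0) * (1 : SymF K) = 1 := by
      rw [Nat.sub_zero, gam, et, elem]
      simp
    rw [this, cl_nil, one_smul, sub_self]
    exact Submodule.zero_mem _
  | cons m κ ih =>
    rw [hl_cons, map_mul, Lm_rec q t m 0 _ _ (Nat.lt_succ_self _)]
    simp only [Nat.zero_le, if_true, Nat.sub_zero]
    rw [Finset.sum_range_succ', add_zero, coeff_io1_zero, cl_cons]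
    have e1 : t • (homog K m * Lm q 0 (io1 t (hl K κ))) + (1 - t) •
        (∑ c ∈ range (io1 t (hl K κ)).natDegree, q ^ (m + (c + 1)) •
          (homog K (m + (c + 1)) * (io1 t (hl K κ)).coeff (c + 1)) +
          q ^ m • (homog K m * hl K κ) -
          ∑ c ∈ Ioo 0 ((io1 t (hl K κ)).natDegree + 1),
            homog K (m + c) * Lm q c (io1 t (hl K κ))) -
        ((1 - t) * q ^ m + t * cl q t κ) • (homog K m * hl K κ) =
        t • (homog K m * (Lm q 0 (io1 t (hl K κ)) - cl q t κ • hl K κ)) + (1 - t) •
        (∑ c ∈ range (io1 t (hl K κ)).natDegree, q ^ (m + (c + 1)) •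
          (homog K (m + (c + 1)) * (io1 t (hl K κ)).coeff (c + 1)) -
          ∑ c ∈ Ioo 0 ((io1 t (hl K κ)).natDegree + 1),
            homog K (m + c) * Lm q c (io1 t (hl K κ))) := by
      simp only [MvPolynomial.smul_eq_C_mul, map_add, map_mul, map_sub, map_one]
      ring
    rw [e1]
    refine Submodule.add_mem _ (Submodule.smul_mem _ _ (homog_mul_mem0 ih))
      (Submodule.smul_mem _ _ (Submodule.sub_mem _ (Submodule.sum_mem _ fun c _ => ?_)
        (Submodule.sum_mem _ fun c hc => ?_)))
    · exact Submodule.smul_mem _ _ (homog_mul_mem1 (Nat.succ_pos c) (coeff_io1_mem t κ _))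
    · rw [mem_Ioo] at hc
      exact homog_mul_mem1 hc.1 (Lm_io1_mem q t κ c)

/-- triangularity of the conjugate of `D_0` on the products `h_κ` -/
theorem D1_hl (q t : K) (κ : List ℕ) : D1 q t (hl K κ) - cl q t κ • hl K κ ∈
    Submodule.span K {f | ∃ τ : List ℕ, τ.length = κ.length ∧ τ.sum = κ.sum ∧
      (∀ k, (κ.take k).sum ≤ (τ.take k).sum) ∧ τ ≠ κ ∧ f = hl K τ} := D1_hl_mem q t κ

end gen

end Pool.Agent.Lib.MP_0e7911_co_full
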